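import Mathlib
import Pool.Agent.H55.HT3.Core

/-!
Hindman's theorem for sums of at most two elements and two colours: definitions for the coding
two-colouring (squad HTC).
-/

namespace Pool.Agent.HTC

open Pool.Agent.H55.HT3

/-- the odd part -/
def op (n : ℕ) : ℕ := n / 2 ^ low n

/-- `2 ^ 2 ^ f - 1` -/
def EE (f : ℕ) : ℕ := 2 ^ 2 ^ f - 1

/-- `2 ^ 2 ^ f + 1` -/
def FF (f : ℕ) : ℕ := 2 ^ 2 ^ f + 1

/-- the level: the greatest `k` such that `EE k` divides `n` -/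
def kk (n : ℕ) : ℕ := Nat.findGreatest (fun k => EE k ∣ n) n

/-- the doubling-flipping colouring modulo `FF k` -/
def DD (k n : ℕ) : ZMod 2 := ∑ j ∈ Finset.range (2 ^ k), ((2 ^ j * n % FF k : ℕ) : ZMod 2)

/-- the index of the modulus used for level `k` and stage `h` -/
def fl (k h : ℕ) : ℕ := k + h + 1

/-- the precision of the spikes -/
def pr (h : ℕ) : ℕ := h + 20

/-- the spikes -/
def SS (M n y : ℕ) : ZMod 2 := if op (n - y) % 2 ^ M = y % 2 ^ M then 1 else 0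

/-- the number `n` looks like `2 ^ i * y` -/
def Mt (h n y i : ℕ) : Prop :=
  y % 2 = 1 ∧ y < h ∧ kk y = kk n ∧ i < 2 ^ fl (kk n) h ∧
    n % EE (fl (kk n) h) = 2 ^ i * y % EE (fl (kk n) h)

/-- stage functions: `st n k` is the approximation at stage `n` of the last stage `hl k` at which
something below `k` happens -/
structure IsStg (st : ℕ → ℕ → ℕ) (hl : ℕ → ℕ) : Prop where
  le : ∀ n k, st n k ≤ n
  lim : ∀ n k, hl k ≤ n → st n k = hl k
  mono : ∀ k k', k ≤ k' → hl k ≤ hl k'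

/-- the functional equations of the colouring -/
structure IsCol (st : ℕ → ℕ → ℕ) (c : ℕ → ZMod 2) : Prop where
  two_mul : ∀ n, 0 < n → c (2 * n) = c n + 1
  mt : ∀ n y i, n % 2 = 1 → Mt (st n (kk n)) n y i →
    c n = (i : ZMod 2) + 1 + c y + SS (pr (st n (kk n))) n y
  dd : ∀ n, n % 2 = 1 → (∀ y i, ¬ Mt (st n (kk n)) n y i) → c n = DD (kk n) n

/-- solutions: positive numbers, one colour on the set and on the sums of two elements -/
def Sol (c : ℕ → ZMod 2) (X : Set ℕ) : Prop :=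
  ∃ i, (∀ x ∈ X, 0 < x ∧ c x = i) ∧ ∀ x ∈ X, ∀ z ∈ X, x < z → c (x + z) = i

lemma Sol.mono {c : ℕ → ZMod 2} {X Y : Set ℕ} (h : Sol c X) (hYX : Y ⊆ X) : Sol c Y := by
  obtain ⟨i, h1, h2⟩ := h
  exact ⟨i, fun x hx => h1 x (hYX hx), fun x hx z hz => h2 x (hYX hx) z (hYX hz)⟩

/-- admissible quadruples for level `k` -/
def Adm (k x₁ x₂ x₃ x₄ : ℕ) : Prop :=
  (k ≤ kk x₁ ∧ k ≤ kk x₂ ∧ k ≤ kk x₃ ∧ k ≤ kk x₄) ∧
    4 * op x₁ ^ 6 < op x₂ ∧ 4 * op x₂ ^ 6 < op x₃ ∧ 4 * op x₃ ^ 6 < op x₄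

end Pool.Agent.HTC
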