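import Mathlib
import Pool.Agent.HTC.Defs

/-! Odd parts and 2-adic valuations. -/

namespace Pool.Agent.HTC

open Pool.Agent.H55.HT3

lemma op_mul {n : ℕ} (hn : 0 < n) : 2 ^ low n * op n = n :=
  Nat.mul_div_cancel' (low_dvd hn)

lemma op_odd {n : ℕ} (hn : 0 < n) : op n % 2 = 1 := by
  by_contra hc
  have h1 : 2 ∣ op n := by omega
  obtain ⟨c, hc⟩ := h1
  have h2 := op_mul hn
  have h3 : 2 ^ (low n + 1) ∣ n := by
    refine ⟨c, ?_⟩
    calc n = 2 ^ low n * op n := h2.symm
      _ = 2 ^ low n * (2 * c) := by rw [hc]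
      _ = 2 ^ (low n + 1) * c := by ring
  have := le_low hn h3
  omega

lemma low_pow_mul {m : ℕ} (a : ℕ) (hm : m % 2 = 1) : low (2 ^ a * m) = a := by
  have hpos : 0 < 2 ^ a * m := Nat.mul_pos (by positivity) (by omega)
  apply le_antisymm
  · by_contra hc
    have h1 : 2 ^ (a + 1) ∣ 2 ^ a * m := (dvd_iff hpos).mpr (by omega)
    rw [pow_succ] at h1
    have h2 : 2 ∣ m := Nat.dvd_of_mul_dvd_mul_left (by positivity) h1
    omega
  · exact le_low hpos (dvd_mul_right _ _)

lemma op_pow_mul {m : ℕ} (a : ℕ) (hm : m % 2 = 1) : op (2 ^ a * m) = m := by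
  unfold op
  rw [low_pow_mul a hm]
  exact Nat.mul_div_cancel_left m (by positivity)

lemma low_pow_mul' {n : ℕ} (a : ℕ) (hn : 0 < n) : low (2 ^ a * n) = a + low n := by
  have h := op_mul hn
  have h1 : 2 ^ a * n = 2 ^ (a + low n) * op n := by
    conv_lhs => rw [← h]
    ring
  rw [h1]
  exact low_pow_mul _ (op_odd hn)

lemma op_pow_mul' {n : ℕ} (a : ℕ) (hn : 0 < n) : op (2 ^ a * n) = op n := by
  have h := op_mul hn
  have h1 : 2 ^ a * n = 2 ^ (a + low n) * op n := by
    conv_lhs => rw [← h]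
    ring
  rw [h1]
  exact op_pow_mul _ (op_odd hn)

lemma low_of_odd {n : ℕ} (hn : n % 2 = 1) : low n = 0 := by
  have := low_pow_mul 0 hn
  simpa using this

lemma op_of_odd {n : ℕ} (hn : n % 2 = 1) : op n = n := by
  have := op_pow_mul 0 hn
  simpa using this

lemma op_pos {n : ℕ} (hn : 0 < n) : 0 < op n := by
  have := op_odd hn
  omega

lemma op_le {n : ℕ} : op n ≤ n := Nat.div_le_self _ _

/-- adding a number of much higher valuation -/
lemma low_add_far {r d z : ℕ} (hr : 0 < r) (hd : low r < d) : low (r + 2 ^ d * z) = low r := by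
  apply low_eq_of (by omega) hr
  intro k
  by_cases hk : k ≤ d
  · exact Nat.dvd_add_left (dvd_mul_of_dvd_left (pow_dvd_pow 2 hk) z)
  · constructor
    · intro h2
      exfalso
      have h3 : 2 ^ d ∣ r + 2 ^ d * z := dvd_trans (pow_dvd_pow 2 (by omega)) h2
      have h4 : 2 ^ d ∣ r := (Nat.dvd_add_left (dvd_mul_right _ _)).mp h3
      have := le_low hr h4
      omega
    · intro h2
      exfalso
      have h4 : 2 ^ d ∣ r := dvd_trans (pow_dvd_pow 2 (by omega)) h2
      have := le_low hr h4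
      omega

lemma op_add_far {r d z : ℕ} (hr : 0 < r) (hd : low r < d) :
    op (r + 2 ^ d * z) = op r + 2 ^ (d - low r) * z := by
  have h1 : r + 2 ^ d * z = 2 ^ low r * (op r + 2 ^ (d - low r) * z) := by
    have h2 : 2 ^ d = 2 ^ low r * 2 ^ (d - low r) := by
      rw [← pow_add]; congr 1; omega
    rw [mul_add, op_mul hr, h2]
    ring
  have h3 : 2 ∣ 2 ^ (d - low r) * z :=
    dvd_mul_of_dvd_left (dvd_pow_self 2 (by omega)) z
  have h4 := op_odd hr
  rw [h1]
  exact op_pow_mul _ (by omega)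

end Pool.Agent.HTC
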