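import Mathlib
import Pool.Agent.HTC.Defs
import Pool.Agent.HTC.Num1

/-! Odd parts, the moduli `EE`, `FF`, the level `kk`. -/

namespace Pool.Agent.HTC

open Pool.Agent.H55.HT3

lemma two_le_pow_pow (f : ℕ) : 2 ≤ 2 ^ 2 ^ f := by
  have h1 : 1 ≤ 2 ^ f := Nat.one_le_two_pow
  calc 2 = 2 ^ 1 := by norm_num
    _ ≤ 2 ^ 2 ^ f := Nat.pow_le_pow_right (by norm_num) h1

lemma pow_pow_even (f : ℕ) : 2 ^ 2 ^ f % 2 = 0 := by
  have h1 : 1 ≤ 2 ^ f := Nat.one_le_two_pow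
  have h2 : 2 ^ 1 ∣ 2 ^ 2 ^ f := pow_dvd_pow 2 h1
  rw [pow_one] at h2
  exact Nat.mod_eq_zero_of_dvd h2

lemma EE_add_one (f : ℕ) : EE f + 1 = 2 ^ 2 ^ f := by
  have := two_le_pow_pow f
  unfold EE
  omega

lemma EE_pos (f : ℕ) : 0 < EE f := by
  have := two_le_pow_pow f
  unfold EE
  omega

lemma EE_odd (f : ℕ) : EE f % 2 = 1 := by
  have h1 := two_le_pow_pow f
  have h2 := pow_pow_even f
  unfold EE
  omega

lemma EE_zero : EE 0 = 1 := by
  unfold EE
  norm_num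

lemma EE_succ (f : ℕ) : EE (f + 1) = EE f * FF f := by
  have h1 := EE_add_one f
  have h2 := EE_add_one (f + 1)
  have h3 : 2 ^ 2 ^ (f + 1) = 2 ^ 2 ^ f * 2 ^ 2 ^ f := by
    rw [← pow_add]
    congr 1
    rw [pow_succ]
    ring
  have h4 : EE (f + 1) + 1 = (EE f + 1) * (EE f + 1) := by rw [h2, h3, ← h1]
  have h5 : EE f * FF f = EE f * (EE f + 1 + 1) := by
    unfold FF
    rw [← h1]
  rw [h5]
  have h6 : (EE f + 1) * (EE f + 1) = EE f * (EE f + 1 + 1) + 1 := by ring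
  omega

lemma EE_dvd {f g : ℕ} (h : f ≤ g) : EE f ∣ EE g := by
  induction h with
  | refl => exact dvd_refl _
  | step _ ih => exact dvd_trans ih ⟨_, EE_succ _⟩

lemma lt_EE (f : ℕ) : f ≤ EE f := by
  have h1 : f < 2 ^ f := Nat.lt_two_pow_self
  have h2 : 2 ^ f < 2 ^ 2 ^ f := Nat.lt_two_pow_self
  unfold EE
  omega

lemma EE_coprime_two (f : ℕ) : Nat.Coprime (EE f) 2 := by
  exact (Nat.odd_iff.mpr (EE_odd f)).coprime_two_right

lemma EE_coprime_FF (f : ℕ) : Nat.Coprime (EE f) (FF f) := by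
  have h1 : FF f = 2 + EE f := by
    have h2 := two_le_pow_pow f
    unfold FF EE
    omega
  rw [h1, Nat.coprime_add_self_right]
  exact EE_coprime_two f

lemma FF_odd (f : ℕ) : FF f % 2 = 1 := by
  have h2 := pow_pow_even f
  unfold FF
  omega

/-- `2 ^ 2 ^ f` is `1` modulo `EE f` -/
lemma pow_modEq (f : ℕ) : 2 ^ 2 ^ f ≡ 1 [MOD EE f] := by
  rw [← EE_add_one]
  exact Nat.add_modEq_left

lemma pow_modEq_pow_aux (f i c : ℕ) : 2 ^ (i + 2 ^ f * c) ≡ 2 ^ i [MOD EE f] := by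
  rw [pow_add, pow_mul]
  have h1 := ((pow_modEq f).pow c).mul_left (2 ^ i)
  rwa [one_pow, mul_one] at h1

/-- exponents of two only matter modulo `2 ^ f` -/
lemma pow_modEq_pow {f i j : ℕ} (h : i ≡ j [MOD 2 ^ f]) : 2 ^ i ≡ 2 ^ j [MOD EE f] := by
  rcases le_total i j with hij | hij
  · obtain ⟨c, hc⟩ := (Nat.modEq_iff_dvd' hij).mp h
    have h1 : j = i + 2 ^ f * c := by omega
    rw [h1]
    exact (pow_modEq_pow_aux f i c).symm
  · obtain ⟨c, hc⟩ := (Nat.modEq_iff_dvd' hij).mp h.symm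
    have h1 : i = j + 2 ^ f * c := by omega
    rw [h1]
    exact pow_modEq_pow_aux f j c

lemma kk_dvd {n : ℕ} : EE (kk n) ∣ n := by
  unfold kk
  exact Nat.findGreatest_spec (P := fun k => EE k ∣ n) (Nat.zero_le n)
    (by rw [EE_zero]; exact one_dvd n)

lemma le_kk {n k : ℕ} (hn : 0 < n) : k ≤ kk n ↔ EE k ∣ n := by
  constructor
  · intro h
    exact dvd_trans (EE_dvd h) kk_dvd
  · intro h
    unfold kk
    exact Nat.le_findGreatest (le_trans (lt_EE k) (Nat.le_of_dvd hn h)) h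

lemma not_FF_dvd {n : ℕ} (hn : 0 < n) : ¬ FF (kk n) ∣ n := by
  intro h
  have h1 : EE (kk n + 1) ∣ n := by
    rw [EE_succ]
    exact Nat.Coprime.mul_dvd_of_dvd_of_dvd (EE_coprime_FF _) kk_dvd h
  have h2 := (le_kk hn).mpr h1
  omega

lemma kk_pow_mul {n : ℕ} (a : ℕ) (hn : 0 < n) : kk (2 ^ a * n) = kk n := by
  have hp : 0 < 2 ^ a * n := by positivity
  have key : ∀ k, EE k ∣ 2 ^ a * n ↔ EE k ∣ n := by
    intro k
    constructor
    · intro h
      exact Nat.Coprime.dvd_of_dvd_mul_left ((EE_coprime_two k).pow_right a) h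
    · intro h
      exact Dvd.dvd.mul_left h _
  apply le_antisymm
  · rw [le_kk hn, ← key, ← le_kk hp]
  · rw [le_kk hp, key, ← le_kk hn]

lemma kk_two_mul {n : ℕ} (hn : 0 < n) : kk (2 * n) = kk n := by
  have h := kk_pow_mul (n := n) 1 hn
  rwa [pow_one] at h

lemma kk_op {n : ℕ} (hn : 0 < n) : kk (op n) = kk n := by
  have h := kk_pow_mul (n := op n) (low n) (op_pos hn)
  rw [op_mul hn] at h
  exact h.symm

/-- the level only depends on the residue modulo `EE f`, `f` greater than the level -/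
lemma kk_congr {m n f : ℕ} (hm : 0 < m) (hn : 0 < n) (hf : kk n < f) (h : m ≡ n [MOD EE f]) :
    kk m = kk n := by
  have key : ∀ k, k ≤ f → (EE k ∣ m ↔ EE k ∣ n) := by
    intro k hk
    have h1 : m ≡ n [MOD EE k] := h.of_dvd (EE_dvd hk)
    rw [← Nat.modEq_zero_iff_dvd, ← Nat.modEq_zero_iff_dvd]
    exact ⟨fun h2 => h1.symm.trans h2, fun h2 => h1.trans h2⟩
  apply le_antisymm
  · by_contra hcon
    push Not at hcon
    have h1 : EE (kk n + 1) ∣ m := (le_kk hm).mp hcon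
    rw [key _ hf, ← le_kk hn] at h1
    omega
  · rw [le_kk hm, key _ hf.le]
    exact kk_dvd

lemma EE_kk_le_op {n : ℕ} (hn : 0 < n) : EE (kk n) ≤ op n := by
  rw [← kk_op hn]
  exact Nat.le_of_dvd (op_pos hn) kk_dvd

/-- cancel a power of two modulo `EE f` -/
lemma modEq_cancel_pow {f a m n : ℕ} (h : 2 ^ a * m ≡ 2 ^ a * n [MOD EE f]) :
    m ≡ n [MOD EE f] :=
  Nat.ModEq.cancel_left_of_coprime ((EE_coprime_two f).pow_right a) h

lemma fl_gt (k h : ℕ) : k < fl k h := by unfold fl; omega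

lemma fl_pos (k h : ℕ) : 0 < fl k h := by unfold fl; omega

/-- casts modulo two of exponents which agree modulo `2 ^ f`, `f > 0` -/
lemma cast_eq_of_modEq {f i j : ℕ} (hf : 0 < f) (h : i ≡ j [MOD 2 ^ f]) :
    (i : ZMod 2) = (j : ZMod 2) := by
  rw [ZMod.natCast_eq_natCast_iff]
  exact h.of_dvd (dvd_pow_self 2 (by omega))

lemma zmod_two_add_self (a : ZMod 2) : a + a = 0 := by
  revert a
  decide

lemma zmod_ne_add_one (a : ZMod 2) : a ≠ a + 1 := by
  revert a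
  decide

lemma SS_eq_zero_or_one (M n y : ℕ) : SS M n y = 0 ∨ SS M n y = 1 := by
  unfold SS
  split_ifs
  · right; rfl
  · left; rfl

end Pool.Agent.HTC
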