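import Mathlib
import Pool.Agent.HTC.Num

/-! The arithmetic of the spikes, for numbers of equal valuation. -/

namespace Pool.Agent.HTC

open Pool.Agent.H55.HT3


/-! Lemma L of squad HTC. -/

/-- numbers of the form `2 ^ T + 2 ^ t - 1` or `2 ^ t - 1` -/
def QForm (Q : ℕ) : Prop :=
  (∃ T t, 0 < t ∧ t < T ∧ Q = 2 ^ T + 2 ^ t - 1) ∨ ∃ t, 0 < t ∧ Q = 2 ^ t - 1

lemma ariL_dvd {a b β X Y : ℕ} (hX : 2 ^ a ∣ X) (hY : 2 ^ b ∣ Y) (h : X + β = Y) (hβ : 0 < β) :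
    2 ^ a ≤ β ∨ 2 ^ b ≤ β := by
  rcases le_total a b with hab | hab
  · left
    have h1 : 2 ^ a ∣ X + β := by rw [h]; exact (pow_dvd_pow 2 hab).trans hY
    exact Nat.le_of_dvd hβ ((Nat.dvd_add_right hX).mp h1)
  · right
    have h1 : 2 ^ b ∣ X + β := by rw [h]; exact hY
    exact Nat.le_of_dvd hβ ((Nat.dvd_add_right ((pow_dvd_pow 2 hab).trans hX)).mp h1)

lemma ariL_ne {p p' T T' : ℕ} (hp : p % 2 = 1) (hp' : p' % 2 = 1) (hlt : p < p') :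
    p * 2 ^ T ≠ p' * 2 ^ T' := by
  intro h
  rcases le_total T T' with hT | hT
  · obtain ⟨d, rfl⟩ := Nat.exists_eq_add_of_le hT
    have h1 : p * 2 ^ T = (p' * 2 ^ d) * 2 ^ T := by rw [h, pow_add]; ring
    have h2 : p = p' * 2 ^ d := Nat.eq_of_mul_eq_mul_right (by positivity) h1
    have h3 : 1 ≤ 2 ^ d := Nat.one_le_two_pow
    nlinarith
  · obtain ⟨d, rfl⟩ := Nat.exists_eq_add_of_le hT
    have h1 : (p * 2 ^ d) * 2 ^ T' = p' * 2 ^ T' := by rw [← h, pow_add]; ring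
    have h2 : p * 2 ^ d = p' := Nat.eq_of_mul_eq_mul_right (by positivity) h1
    rcases Nat.eq_zero_or_pos d with rfl | hd
    · simp at h2; omega
    · obtain ⟨e, rfl⟩ := Nat.exists_eq_succ_of_ne_zero hd.ne'
      rw [pow_succ] at h2
      have : p' % 2 = 0 := by rw [← h2, ← mul_assoc]; exact Nat.mul_mod_left _ _
      omega

/-- the case of two powers on both sides -/
lemma ariL_gamma {p p' T T' u u' N : ℕ} (hp : p % 2 = 1) (hp' : p' % 2 = 1) (hlt : p < p')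
    (hu : u < N) (hu' : u' < N) (h : p * 2 ^ T + p * u = p' * 2 ^ T' + p' * u') :
    p * 2 ^ T + p * u ≤ p' * (p' * N) + p' * N := by
  have hN : 0 < N := by omega
  have hp1 : 1 ≤ p := by omega
  have hpu : p * u ≤ p' * N := Nat.mul_le_mul hlt.le hu.le
  have hpu' : p' * u' ≤ p' * N := Nat.mul_le_mul le_rfl hu'.le
  have hX : 2 ^ T ∣ p * 2 ^ T := Dvd.intro_left _ rfl
  have hY : 2 ^ T' ∣ p' * 2 ^ T' := Dvd.intro_left _ rfl
  -- it suffices that one of the two powers is at most `p' * N`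
  have key : 2 ^ T ≤ p' * N ∨ 2 ^ T' ≤ p' * N := by
    rcases lt_trichotomy (p * u) (p' * u') with hc | hc | hc
    · have h1 : p' * 2 ^ T' + (p' * u' - p * u) = p * 2 ^ T := by omega
      rcases ariL_dvd hY hX h1 (by omega) with h2 | h2
      · right; omega
      · left; omega
    · exfalso
      exact ariL_ne hp hp' hlt (T := T) (T' := T') (by omega)
    · have h1 : p * 2 ^ T + (p * u - p' * u') = p' * 2 ^ T' := by omega
      rcases ariL_dvd hX hY h1 (by omega) with h2 | h2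
      · left; omega
      · right; omega
  rcases key with h1 | h1
  · have h2 : p * 2 ^ T ≤ p' * (p' * N) := Nat.mul_le_mul hlt.le h1
    omega
  · have h2 : p' * 2 ^ T' ≤ p' * (p' * N) := Nat.mul_le_mul le_rfl h1
    omega


/-- Lemma L -/
lemma lemL {p p' Q Q' : ℕ} (hp : p % 2 = 1) (hp' : p' % 2 = 1) (hlt : p < p') (hQ : QForm Q)
    (hQ' : QForm Q') (h : p * Q = p' * Q') : p * Q ≤ 2 * p' ^ 5 := by
  have hp1 : 1 ≤ p := by omega
  have hp3 : 3 ≤ p' := by omega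
  have hle : p ≤ p' := hlt.le
  have hbig : p' * (p' * p' ^ 2) + p' * p' ^ 2 ≤ 2 * p' ^ 5 := by
    have h1 : p' * (p' * p' ^ 2) = p' ^ 4 := by ring
    have h2 : p' * p' ^ 2 = p' ^ 3 := by ring
    have h3 : p' ^ 4 ≤ p' ^ 5 := Nat.pow_le_pow_right (by omega) (by norm_num)
    have h4 : p' ^ 3 ≤ p' ^ 5 := Nat.pow_le_pow_right (by omega) (by norm_num)
    omega
  have hsq : p' ≤ p' ^ 2 := by nlinarith
  have hpp : p' * p' = p' ^ 2 := by ring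
  generalize 2 * p' ^ 5 = B at hbig ⊢
  generalize p' ^ 2 = N at hbig hsq hpp
  have h35 : p' * N ≤ B := by omega
  have h36 : N ≤ p' * N := by nlinarith
  have h37 : p' * N ≤ p' * (p' * N) := Nat.mul_le_mul_left _ h36
  -- `Q = x + u` with `u = 2 ^ t - 1`, `x = 0` or `x = 2 ^ T`
  have form : ∀ {R : ℕ}, QForm R → ∃ x t u, 0 < t ∧ 2 ^ t = u + 1 ∧ R = x + u ∧
      (x = 0 ∨ ∃ T, t < T ∧ x = 2 ^ T) := by
    rintro R (⟨T, t, h0, h1, rfl⟩ | ⟨t, h0, rfl⟩)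
    · have h2 : 1 ≤ 2 ^ t := Nat.one_le_two_pow
      exact ⟨2 ^ T, t, 2 ^ t - 1, h0, (Nat.sub_add_cancel h2).symm, Nat.add_sub_assoc h2 _,
        Or.inr ⟨T, h1, rfl⟩⟩
    · have h2 : 1 ≤ 2 ^ t := Nat.one_le_two_pow
      exact ⟨0, t, 2 ^ t - 1, h0, (Nat.sub_add_cancel h2).symm, (Nat.zero_add _).symm, Or.inl rfl⟩
  obtain ⟨x, t, u, ht, hu, rfl, hx⟩ := form hQ
  obtain ⟨x', t', u', ht', hu', rfl, hx'⟩ := form hQ'
  have hE : p * (x + u) = p' * (x' + u') := h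
  have hxt : 2 ^ t ∣ x := by
    rcases hx with rfl | ⟨T, hT, rfl⟩
    · exact dvd_zero _
    · exact pow_dvd_pow 2 hT.le
  have hxt' : 2 ^ t' ∣ x' := by
    rcases hx' with rfl | ⟨T, hT, rfl⟩
    · exact dvd_zero _
    · exact pow_dvd_pow 2 hT.le
  have d1 : 2 ^ t ∣ p * (x + (u + 1)) := by
    rw [← hu]; exact Dvd.dvd.mul_left (dvd_add hxt dvd_rfl) _
  have d1' : 2 ^ t' ∣ p' * (x' + (u' + 1)) := by
    rw [← hu']; exact Dvd.dvd.mul_left (dvd_add hxt' dvd_rfl) _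
  have e1 : p * (x + (u + 1)) + (p' - p) = p' * (x' + (u' + 1)) := by
    have : p * (x + (u + 1)) = p * (x + u) + p := by ring
    have h2 : p' * (x' + (u' + 1)) = p' * (x' + u') + p' := by ring
    omega
  have k1 := ariL_dvd d1 d1' e1 (by omega)
  -- expanded form
  have e2 : p * x + p * u = p' * x' + p' * u' := by
    have := hE; rw [mul_add, mul_add] at this; exact this
  have hA : p * (x + u) = p * x + p * u := mul_add _ _ _
  rcases le_total t t' with htt | htt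
  · -- case 1
    have hut : u + 1 ≤ p' - p := by
      rcases k1 with k | k
      · omega
      · have : 2 ^ t ≤ 2 ^ t' := Nat.pow_le_pow_right (by norm_num) htt
        omega
    have hpu : p * u ≤ p' * u := Nat.mul_le_mul_right _ hle
    have hpu2 : p' * u + p' ≤ p' * p' := by
      have : p' * (u + 1) ≤ p' * p' := Nat.mul_le_mul_left _ (by omega)
      rw [mul_add, mul_one] at this; exact this
    rcases hx with rfl | ⟨T, hT, rfl⟩
    · rw [hA]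
      omega
    · -- β = p * u + p'
      have e3 : p * 2 ^ T + (p * u + p') = p' * (x' + (u' + 1)) := by
        have h2 : p' * (x' + (u' + 1)) = p' * x' + p' * u' + p' := by ring
        omega
      have k2 := ariL_dvd (Dvd.intro_left p rfl) d1' e3 (by omega)
      have hβ : p * u + p' ≤ N := by omega
      have k3 : 2 ^ T ≤ N ∨ 2 ^ t' ≤ N := by
        rcases k2 with k | k
        · left; omega
        · right; omega
      rcases k3 with k | k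
      · have h5 : p * 2 ^ T ≤ p' * N := Nat.mul_le_mul hle k
        rw [hA]
        omega
      · have hu'N : u' < N := by omega
        have huN : u < N := by omega
        rcases hx' with rfl | ⟨T', hT', rfl⟩
        · rw [hA, e2]
          have : p' * u' ≤ p' * N := Nat.mul_le_mul_left _ hu'N.le
          omega
        · rw [hA]
          exact (ariL_gamma hp hp' hlt huN hu'N e2).trans hbig
  · -- case 2
    have hut : u' + 1 ≤ p' - p := by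
      rcases k1 with k | k
      · have : 2 ^ t' ≤ 2 ^ t := Nat.pow_le_pow_right (by norm_num) htt
        omega
      · omega
    have hpu2 : p' * u' + p' ≤ p' * p' := by
      have : p' * (u' + 1) ≤ p' * p' := Nat.mul_le_mul_left _ (by omega)
      rw [mul_add, mul_one] at this; exact this
    rcases hx' with rfl | ⟨T', hT', rfl⟩
    · rw [hA, e2]
      omega
    · have e3 : p' * 2 ^ T' + (p' * u' + p) = p * (x + (u + 1)) := by
        have h2 : p * (x + (u + 1)) = p * x + p * u + p := by ring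
        omega
      have k2 := ariL_dvd (Dvd.intro_left p' rfl) d1 e3 (by omega)
      have hβ : p' * u' + p ≤ N := by omega
      have k3 : 2 ^ T' ≤ N ∨ 2 ^ t ≤ N := by
        rcases k2 with k | k
        · left; omega
        · right; omega
      rcases k3 with k | k
      · have h5 : p' * 2 ^ T' ≤ p' * N := Nat.mul_le_mul_left _ k
        rw [hA, e2]
        omega
      · have huN : u < N := by omega
        have hu'N : u' < N := by omega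
        rcases hx with rfl | ⟨T, hT, rfl⟩
        · rw [hA]
          have h5 : p * u ≤ p' * N := Nat.mul_le_mul hle huN.le
          omega
        · rw [hA]
          exact (ariL_gamma hp hp' hlt huN hu'N e2).trans hbig

lemma ari_bound (h : ℕ) : h ≤ 2 ^ (h / 3 + 5) := by
  have h1 := Nat.lt_two_pow_self (n := h / 3)
  rw [pow_add]
  omega

/-- the comparison of two spikes -/
lemma pairL {h M p p' T t T' t' q : ℕ} (hp : p < h) (hp' : p' < h) (hp0 : p % 2 = 1)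
    (hp0' : p' % 2 = 1) (hM : h + 20 ≤ M) (_ht : 0 < t) (htT : t < T) (ht' : 0 < t') (htT' : t' < T')
    (hTT : T ≤ T') (hq : q ≡ p * (2 ^ T + 2 ^ t - 1) [MOD 2 ^ (T + M)])
    (hq' : q ≡ p' * (2 ^ T' + 2 ^ t' - 1) [MOD 2 ^ (T' + M)]) :
    ∃ Q, QForm Q ∧ p * (2 ^ T + 2 ^ t - 1) = p' * Q := by
  obtain ⟨L, hL, hL3⟩ : ∃ L, h ≤ 2 ^ L ∧ 3 * L + 5 ≤ M :=
    ⟨h / 3 + 5, ari_bound h, by omega⟩
  have pt : 0 < 2 ^ t := by positivity
  have pt' : 0 < 2 ^ t' := by positivity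
  have htT2 : 2 ^ t < 2 ^ T := Nat.pow_lt_pow_right (by norm_num) htT
  have htT2' : 2 ^ t' < 2 ^ T' := Nat.pow_lt_pow_right (by norm_num) htT'
  -- the numbers
  set A := p * (2 ^ T + 2 ^ t - 1) with hA
  have hA' : p' * (2 ^ T' + 2 ^ t' - 1) + p' = p' * (2 ^ T' + 2 ^ t') := by
    conv_lhs => rw [← Nat.mul_succ]
    congr 1
    omega
  have hcong : A + p' ≡ p' * (2 ^ T' + 2 ^ t') [MOD 2 ^ (T + M)] := by
    rw [← hA']
    apply Nat.ModEq.add_right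
    have h1 : q ≡ p' * (2 ^ T' + 2 ^ t' - 1) [MOD 2 ^ (T + M)] :=
      hq'.of_dvd (pow_dvd_pow 2 (by omega))
    exact hq.symm.trans h1
  -- bound
  have hB : A + p' < 2 ^ (T + 2 + L) := by
    have h1 : A ≤ p * 2 ^ (T + 1) := by
      apply Nat.mul_le_mul_left
      rw [pow_succ]; omega
    have h2 : p * 2 ^ (T + 1) < 2 ^ L * 2 ^ (T + 1) :=
      Nat.mul_lt_mul_of_pos_right (by omega) (by positivity)
    have h3 : p' ≤ 2 ^ L * 2 ^ (T + 1) := by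
      have : 2 ^ L * 1 ≤ 2 ^ L * 2 ^ (T + 1) := Nat.mul_le_mul_left _ (Nat.one_le_two_pow)
      omega
    have h4 : 2 ^ (T + 2 + L) = 2 ^ L * 2 ^ (T + 1) + 2 ^ L * 2 ^ (T + 1) := by
      rw [show T + 2 + L = (L + (T + 1)) + 1 by ring, pow_succ, pow_add]; ring
    omega
  have hpos' : 0 < p' := by omega
  by_cases hc1 : p' * (2 ^ T' + 2 ^ t') < 2 ^ (T + M)
  · refine ⟨2 ^ T' + 2 ^ t' - 1, Or.inl ⟨T', t', ht', htT', rfl⟩, ?_⟩
    have h1 : A + p' < 2 ^ (T + M) :=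
      lt_of_lt_of_le hB (Nat.pow_le_pow_right (by norm_num) (by omega))
    have h2 : A + p' = p' * (2 ^ T' + 2 ^ t') := by
      have := hcong
      unfold Nat.ModEq at this
      rwa [Nat.mod_eq_of_lt h1, Nat.mod_eq_of_lt hc1] at this
    omega
  · push Not at hc1
    have hT' : T + M < L + (T' + 1) := by
      have h1 : p' * (2 ^ T' + 2 ^ t') < 2 ^ (L + (T' + 1)) := by
        rw [pow_add]
        calc p' * (2 ^ T' + 2 ^ t') ≤ p' * 2 ^ (T' + 1) := by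
              apply Nat.mul_le_mul_left; rw [pow_succ]; omega
          _ < 2 ^ L * 2 ^ (T' + 1) := Nat.mul_lt_mul_of_pos_right (by omega) (by positivity)
      exact (Nat.pow_lt_pow_iff_right (by norm_num)).mp (lt_of_le_of_lt hc1 h1)
    obtain ⟨m, hm1, hm2, hm3⟩ : ∃ m, m ≤ T' ∧ m ≤ T + M ∧ T + M ≤ m + L :=
      ⟨min T' (T + M), by omega, by omega, by omega⟩
    have hcm : A + p' ≡ p' * 2 ^ t' [MOD 2 ^ m] := by
      have h1 : A + p' ≡ p' * (2 ^ T' + 2 ^ t') [MOD 2 ^ m] :=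
        hcong.of_dvd (pow_dvd_pow 2 hm2)
      have h2 : p' * (2 ^ T' + 2 ^ t') ≡ p' * 2 ^ t' [MOD 2 ^ m] := by
        rw [mul_add]
        have : p' * 2 ^ T' ≡ 0 [MOD 2 ^ m] :=
          (Nat.modEq_zero_iff_dvd).mpr (Dvd.dvd.mul_left (pow_dvd_pow 2 hm1) _)
        simpa using this.add_right (p' * 2 ^ t')
      exact h1.trans h2
    have hBm : A + p' < 2 ^ m :=
      lt_of_lt_of_le hB (Nat.pow_le_pow_right (by norm_num) (by omega))
    by_cases hc2 : p' * 2 ^ t' < 2 ^ m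
    · refine ⟨2 ^ t' - 1, Or.inr ⟨t', ht', rfl⟩, ?_⟩
      have h2 : A + p' = p' * 2 ^ t' := by
        have := hcm
        unfold Nat.ModEq at this
        rwa [Nat.mod_eq_of_lt hBm, Nat.mod_eq_of_lt hc2] at this
      have h3 : p' * (2 ^ t' - 1) + p' = p' * 2 ^ t' := by
        conv_lhs => rw [← Nat.mul_succ]
        congr 1
        omega
      omega
    · exfalso
      push Not at hc2
      have ht2 : m < L + t' := by
        have h1 : p' * 2 ^ t' < 2 ^ (L + t') := by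
          rw [pow_add]
          exact Nat.mul_lt_mul_of_pos_right (by omega) (by positivity)
        exact (Nat.pow_lt_pow_iff_right (by norm_num)).mp (lt_of_le_of_lt hc2 h1)
      obtain ⟨u, hu1, hu2, hu3⟩ : ∃ u, u ≤ t' ∧ u ≤ m ∧ m ≤ u + L :=
        ⟨min t' m, by omega, by omega, by omega⟩
      have hd : 2 ^ u ∣ A + p' := by
        have h1 : A + p' ≡ p' * 2 ^ t' [MOD 2 ^ u] := hcm.of_dvd (pow_dvd_pow 2 hu2)
        have h2 : p' * 2 ^ t' ≡ 0 [MOD 2 ^ u] :=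
          (Nat.modEq_zero_iff_dvd).mpr (Dvd.dvd.mul_left (pow_dvd_pow 2 hu1) _)
        exact (Nat.modEq_zero_iff_dvd).mp (h1.trans h2)
      have h3 := Nat.le_of_dvd (by omega) hd
      have h4 : 2 ^ (T + 2 + L) ≤ 2 ^ u := Nat.pow_le_pow_right (by norm_num) (by omega)
      omega

/-- a hit, for numbers of equal valuation -/
lemma hit_form {M p q : ℕ} (hp : p % 2 = 1) (hq : q % 2 = 1)
    (h1 : p < op (p + q)) (h2 : op (op (p + q) - p) ≡ p [MOD 2 ^ M]) :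
    ∃ T t, 0 < t ∧ t < T ∧ q ≡ p * (2 ^ T + 2 ^ t - 1) [MOD 2 ^ (T + M)] := by
  have hr : op (p + q) % 2 = 1 := op_odd (by omega)
  have e1 : 2 ^ low (p + q) * op (p + q) = p + q := op_mul (by omega)
  have ht : 1 ≤ low (p + q) := le_low (by omega) (by omega)
  have e2 : 2 ^ low (op (p + q) - p) * op (op (p + q) - p) = op (p + q) - p := op_mul (by omega)
  have hl : 1 ≤ low (op (p + q) - p) := le_low (by omega) (by omega)
  generalize low (op (p + q) - p) = l at *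
  generalize op (op (p + q) - p) = s at *
  generalize op (p + q) = r at *
  generalize low (p + q) = t at *
  refine ⟨t + l, t, by omega, by omega, ?_⟩
  have hrr : r = p + 2 ^ l * s := by omega
  have pt : 0 < 2 ^ t := by positivity
  apply Nat.ModEq.add_right_cancel' p
  have h3 : q + p = 2 ^ t * p + 2 ^ (t + l) * s := by
    rw [pow_add]
    calc q + p = 2 ^ t * r := by omega
      _ = _ := by rw [hrr]; ring
  have h4 : p * (2 ^ (t + l) + 2 ^ t - 1) + p = 2 ^ t * p + 2 ^ (t + l) * p := by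
    have h5 : p * (2 ^ (t + l) + 2 ^ t - 1) + p = p * (2 ^ (t + l) + 2 ^ t) := by
      have h6 : 0 < 2 ^ (t + l) := by positivity
      conv_lhs => rw [← Nat.mul_succ]
      congr 1
      omega
    rw [h5]
    ring
  rw [h3, h4]
  apply Nat.ModEq.add_left
  rw [pow_add 2 (t + l) M]
  exact Nat.ModEq.mul_left' _ h2

lemma three_aux {h M p₁ p₂ p₃ q T₁ t₁ T₂ t₂ T₃ t₃ : ℕ} (hM : h + 20 ≤ M) (ho₁ : p₁ % 2 = 1)
    (ho₂ : p₂ % 2 = 1) (ho₃ : p₃ % 2 = 1) (h₁ : p₁ < h) (h₂ : p₂ < h) (h₃ : p₃ < h)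
    (a₁ : 0 < t₁) (b₁ : t₁ < T₁) (a₂ : 0 < t₂) (b₂ : t₂ < T₂) (a₃ : 0 < t₃) (b₃ : t₃ < T₃)
    (h12 : T₁ ≤ T₂) (h13 : T₁ ≤ T₃)
    (c₁ : q ≡ p₁ * (2 ^ T₁ + 2 ^ t₁ - 1) [MOD 2 ^ (T₁ + M)])
    (c₂ : q ≡ p₂ * (2 ^ T₂ + 2 ^ t₂ - 1) [MOD 2 ^ (T₂ + M)])
    (c₃ : q ≡ p₃ * (2 ^ T₃ + 2 ^ t₃ - 1) [MOD 2 ^ (T₃ + M)]) :
    ∃ A Q₁ Q₂ Q₃, QForm Q₁ ∧ QForm Q₂ ∧ QForm Q₃ ∧ A = p₁ * Q₁ ∧ A = p₂ * Q₂ ∧ A = p₃ * Q₃ := by
  obtain ⟨Q₂, hQ₂, e₂⟩ := pairL h₁ h₂ ho₁ ho₂ hM a₁ b₁ a₂ b₂ h12 c₁ c₂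
  obtain ⟨Q₃, hQ₃, e₃⟩ := pairL h₁ h₃ ho₁ ho₃ hM a₁ b₁ a₃ b₃ h13 c₁ c₃
  exact ⟨_, _, Q₂, Q₃, Or.inl ⟨T₁, t₁, a₁, b₁, rfl⟩, hQ₂, hQ₃, rfl, e₂, e₃⟩

lemma QForm.pos {Q : ℕ} (h : QForm Q) : 0 < Q := by
  rcases h with ⟨T, t, h0, h1, rfl⟩ | ⟨t, h0, rfl⟩
  · have : 2 ^ 1 ≤ 2 ^ t := Nat.pow_le_pow_right (by norm_num) h0
    have : 0 < 2 ^ T := by positivity
    omega
  · have : 2 ^ 1 ≤ 2 ^ t := Nat.pow_le_pow_right (by norm_num) h0
    omega

/-- three hits are impossible -/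
lemma three_hits {h M p₁ p₂ p₃ q : ℕ} (hM : h + 20 ≤ M) (ho₁ : p₁ % 2 = 1) (ho₂ : p₂ % 2 = 1)
    (ho₃ : p₃ % 2 = 1) (hq : q % 2 = 1) (h₁ : p₁ < h) (h₂ : p₂ < h) (h₃ : p₃ < h)
    (h12 : 4 * p₁ ^ 6 < p₂) (h23 : 4 * p₂ ^ 6 < p₃)
    (a₁ : p₁ < op (p₁ + q)) (b₁ : op (op (p₁ + q) - p₁) ≡ p₁ [MOD 2 ^ M])
    (a₂ : p₂ < op (p₂ + q)) (b₂ : op (op (p₂ + q) - p₂) ≡ p₂ [MOD 2 ^ M])
    (a₃ : p₃ < op (p₃ + q)) (b₃ : op (op (p₃ + q) - p₃) ≡ p₃ [MOD 2 ^ M]) : False := by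
  obtain ⟨T₁, t₁, x₁, y₁, c₁⟩ := hit_form ho₁ hq a₁ b₁
  obtain ⟨T₂, t₂, x₂, y₂, c₂⟩ := hit_form ho₂ hq a₂ b₂
  obtain ⟨T₃, t₃, x₃, y₃, c₃⟩ := hit_form ho₃ hq a₃ b₃
  have key : ∃ A Q₁ Q₂ Q₃, QForm Q₁ ∧ QForm Q₂ ∧ QForm Q₃ ∧ A = p₁ * Q₁ ∧ A = p₂ * Q₂ ∧
      A = p₃ * Q₃ := by
    rcases le_total T₁ T₂ with h12' | h12'
    · rcases le_total T₁ T₃ with h13' | h13'
      · exact three_aux hM ho₁ ho₂ ho₃ h₁ h₂ h₃ x₁ y₁ x₂ y₂ x₃ y₃ h12' h13' c₁ c₂ c₃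
      · obtain ⟨A, Q₃, Q₁, Q₂, z₃, z₁, z₂, e₃, e₁, e₂⟩ :=
          three_aux hM ho₃ ho₁ ho₂ h₃ h₁ h₂ x₃ y₃ x₁ y₁ x₂ y₂ h13' (by omega) c₃ c₁ c₂
        exact ⟨A, Q₁, Q₂, Q₃, z₁, z₂, z₃, e₁, e₂, e₃⟩
    · rcases le_total T₂ T₃ with h23' | h23'
      · obtain ⟨A, Q₂, Q₁, Q₃, z₂, z₁, z₃, e₂, e₁, e₃⟩ :=
          three_aux hM ho₂ ho₁ ho₃ h₂ h₁ h₃ x₂ y₂ x₁ y₁ x₃ y₃ h12' h23' c₂ c₁ c₃
        exact ⟨A, Q₁, Q₂, Q₃, z₁, z₂, z₃, e₁, e₂, e₃⟩
      · obtain ⟨A, Q₃, Q₁, Q₂, z₃, z₁, z₂, e₃, e₁, e₂⟩ :=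
          three_aux hM ho₃ ho₁ ho₂ h₃ h₁ h₂ x₃ y₃ x₁ y₁ x₂ y₂ (by omega) h23' c₃ c₁ c₂
        exact ⟨A, Q₁, Q₂, Q₃, z₁, z₂, z₃, e₁, e₂, e₃⟩
  obtain ⟨A, Q₁, Q₂, Q₃, z₁, z₂, z₃, e₁, e₂, e₃⟩ := key
  have hp1 : 0 < p₁ := by omega
  have hlt : p₁ < p₂ := by
    have : p₁ ^ 1 ≤ p₁ ^ 6 := Nat.pow_le_pow_right hp1 (by norm_num)
    rw [pow_one] at this
    omega
  have hL := lemL ho₁ ho₂ hlt z₁ z₂ (by rw [← e₁, ← e₂])
  have h5 : p₂ ^ 5 ≤ p₂ ^ 6 := Nat.pow_le_pow_right (by omega) (by norm_num)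
  have h6 : p₃ ≤ p₃ * Q₃ := Nat.le_mul_of_pos_right _ z₃.pos
  have h7 : 0 < p₂ ^ 5 := Nat.pow_pos (by omega)
  omega

end Pool.Agent.HTC
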