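import Mathlib
import Pool.Agent.HTC.Num

/-! The doubling-flipping colouring modulo `FF k`. -/

namespace Pool.Agent.HTC

lemma doub_last {k n : ℕ} (h : ¬ FF k ∣ n) : 2 ^ 2 ^ k * n % FF k + n % FF k = FF k := by
  have hF : 0 < FF k := by unfold FF; positivity
  have h1 : 2 ^ 2 ^ k * n + n = FF k * n := by unfold FF; ring
  have h2 : (2 ^ 2 ^ k * n + n) % FF k = 0 := by rw [h1]; simp
  have hpos : 0 < n % FF k := by
    rcases Nat.eq_zero_or_pos (n % FF k) with h0 | h0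
    · exact absurd (Nat.dvd_of_mod_eq_zero h0) h
    · exact h0
  have l1 : n % FF k < FF k := Nat.mod_lt _ hF
  have l2 : 2 ^ 2 ^ k * n % FF k < FF k := Nat.mod_lt _ hF
  rw [Nat.add_mod] at h2
  obtain ⟨q, hq⟩ := Nat.dvd_of_mod_eq_zero h2
  rcases q with _ | _ | q
  · omega
  · omega
  · have : FF k * (q + 1 + 1) = FF k * q + FF k + FF k := by ring
    have := Nat.zero_le (FF k * q)
    omega

/-- telescoping: the sum for `2 n` minus the sum for `n` is
`(2 ^ 2 ^ k * n % FF k) - (n % FF k) = FF k - 2 * (n % FF k)` -/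
lemma DD_two_mul {k n : ℕ} (h : ¬ FF k ∣ n) : DD k (2 * n) = DD k n + 1 := by
  have e1 : DD k (2 * n) =
      ∑ j ∈ Finset.range (2 ^ k), ((2 ^ (j + 1) * n % FF k : ℕ) : ZMod 2) := by
    unfold DD
    refine Finset.sum_congr rfl fun j _ => ?_
    rw [pow_succ, mul_assoc]
  have e2 : DD k (2 * n) + ((2 ^ 0 * n % FF k : ℕ) : ZMod 2) =
      DD k n + ((2 ^ 2 ^ k * n % FF k : ℕ) : ZMod 2) := by
    rw [e1, ← Finset.sum_range_succ' (fun j => ((2 ^ j * n % FF k : ℕ) : ZMod 2)),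
      Finset.sum_range_succ]
    rfl
  have e3 : ((2 ^ 2 ^ k * n % FF k : ℕ) : ZMod 2) + ((2 ^ 0 * n % FF k : ℕ) : ZMod 2) = 1 := by
    rw [pow_zero, one_mul, ← Nat.cast_add, doub_last h, ← Nat.cast_one (R := ZMod 2),
      ZMod.natCast_eq_natCast_iff]
    have := FF_odd k
    unfold Nat.ModEq
    omega
  have e4 : ((2 ^ 0 * n % FF k : ℕ) : ZMod 2) + ((2 ^ 0 * n % FF k : ℕ) : ZMod 2) = 0 :=
    zmod_two_add_self _
  calc DD k (2 * n) = (DD k (2 * n) + ((2 ^ 0 * n % FF k : ℕ) : ZMod 2)) +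
        ((2 ^ 0 * n % FF k : ℕ) : ZMod 2) := by rw [add_assoc, e4, add_zero]
    _ = DD k n + (((2 ^ 2 ^ k * n % FF k : ℕ) : ZMod 2) + ((2 ^ 0 * n % FF k : ℕ) : ZMod 2)) := by
        rw [e2, add_assoc]
    _ = DD k n + 1 := by rw [e3]

lemma DD_congr {k m n : ℕ} (h : m ≡ n [MOD FF k]) : DD k m = DD k n := by
  unfold DD
  refine Finset.sum_congr rfl fun j _ => ?_
  have : 2 ^ j * m % FF k = 2 ^ j * n % FF k := h.mul_left _
  rw [this]

lemma DD_pow_mul {k n : ℕ} (a : ℕ) (h : ¬ FF k ∣ n) : DD k (2 ^ a * n) = DD k n + a := by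
  induction a with
  | zero => simp
  | succ a ih =>
    have h' : ¬ FF k ∣ 2 ^ a * n := by
      intro hd
      apply h
      have hc : Nat.Coprime (FF k) (2 ^ a) := by
        apply Nat.Coprime.pow_right
        rw [Nat.coprime_two_right, Nat.odd_iff]
        exact FF_odd k
      exact hc.dvd_of_dvd_mul_left hd
    rw [pow_succ, mul_comm (2 ^ a) 2, mul_assoc, DD_two_mul h', ih]
    push_cast
    ring

end Pool.Agent.HTC
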