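import Mathlib
import Pool.Agent.HTC.Num

/-! Uniqueness of the representation `2 ^ i * y` modulo `EE f` with a small odd `y`. -/

namespace Pool.Agent.HTC

/-- `h ≤ 2 ^ 2 ^ (f - 1)` holds for `f = fl k h` -/
lemma le_pow_fl (k h : ℕ) : h ≤ 2 ^ 2 ^ (fl k h - 1) := by
  have e : fl k h - 1 = k + h := by unfold fl; omega
  rw [e]
  have h1 : h < 2 ^ h := Nat.lt_two_pow_self
  have h2 : 2 ^ h ≤ 2 ^ (k + h) := Nat.pow_le_pow_right (by norm_num) (by omega)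
  have h3 : 2 ^ (k + h) < 2 ^ 2 ^ (k + h) := Nat.lt_two_pow_self
  omega

/-- the main case: a small shift -/
lemma uniq_aux {M c y y₁ : ℕ} (hM : 0 < M) (hc : c ≤ M) (hy : y % 2 = 1)
    (hyl : y < 2 ^ M) (hyl₁ : y₁ < 2 ^ M)
    (h : y ≡ 2 ^ c * y₁ [MOD 2 ^ (2 * M) - 1]) : c = 0 ∧ y = y₁ := by
  have hMM : 2 ^ (2 * M) = 2 ^ M * 2 ^ M := by rw [two_mul, pow_add]
  have h2 : 2 ≤ 2 ^ M := by
    calc 2 = 2 ^ 1 := by norm_num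
      _ ≤ 2 ^ M := Nat.pow_le_pow_right (by norm_num) hM
  have hcM : 2 ^ c ≤ 2 ^ M := Nat.pow_le_pow_right (by norm_num) hc
  have l1 : 2 ^ c * y₁ < 2 ^ (2 * M) - 1 := by
    have a : 2 ^ c * y₁ ≤ 2 ^ M * (2 ^ M - 1) := Nat.mul_le_mul hcM (by omega)
    have b : 2 ^ M * (2 ^ M - 1) = 2 ^ (2 * M) - 2 ^ M := by
      rw [hMM, Nat.mul_sub, mul_one]
    have c' : 2 ^ M ≤ 2 ^ (2 * M) := Nat.pow_le_pow_right (by norm_num) (by omega)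
    omega
  have l2 : y < 2 ^ (2 * M) - 1 := by
    have : 2 * 2 ^ M ≤ 2 ^ (2 * M) := by
      rw [hMM]; exact Nat.mul_le_mul_right _ h2
    omega
  have e : y = 2 ^ c * y₁ := by
    have := h
    unfold Nat.ModEq at this
    rwa [Nat.mod_eq_of_lt l2, Nat.mod_eq_of_lt l1] at this
  have hc0 : c = 0 := by
    by_contra hne
    obtain ⟨d, rfl⟩ : ∃ d, c = d + 1 := ⟨c - 1, by omega⟩
    rw [pow_succ, mul_comm (2 ^ d) 2, mul_assoc] at e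
    omega
  refine ⟨hc0, ?_⟩
  rw [e, hc0]; simp

lemma uniq_aux2 {f y y₁ i j : ℕ} (hf : 0 < f) (hy : y % 2 = 1) (hy₁ : y₁ % 2 = 1)
    (hyl : y < 2 ^ 2 ^ (f - 1)) (hyl₁ : y₁ < 2 ^ 2 ^ (f - 1)) (hij : i ≤ j) (hj : j < 2 ^ f)
    (h : 2 ^ i * y ≡ 2 ^ j * y₁ [MOD EE f]) : y = y₁ ∧ i = j := by
  obtain ⟨c, rfl⟩ : ∃ c, j = i + c := ⟨j - i, by omega⟩
  have hN : 2 ^ f = 2 * 2 ^ (f - 1) := by
    obtain ⟨g, rfl⟩ : ∃ g, f = g + 1 := ⟨f - 1, by omega⟩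
    rw [Nat.add_sub_cancel, pow_succ, mul_comm]
  have hE : EE f = 2 ^ (2 * 2 ^ (f - 1)) - 1 := by unfold EE; rw [← hN]
  have hM : 0 < 2 ^ (f - 1) := by positivity
  rw [pow_add, mul_assoc] at h
  have h' := modEq_cancel_pow h
  rcases le_or_gt c (2 ^ (f - 1)) with hc | hc
  · rw [hE] at h'
    have := uniq_aux hM hc hy hyl hyl₁ h'
    exact ⟨this.2, by omega⟩
  · exfalso
    have h3 : 2 ^ (2 ^ f - c) * y ≡ 2 ^ (2 ^ f - c) * (2 ^ c * y₁) [MOD EE f] :=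
      h'.mul_left _
    have e1 : 2 ^ (2 ^ f - c) * (2 ^ c * y₁) = 2 ^ 2 ^ f * y₁ := by
      rw [← mul_assoc, ← pow_add]
      congr 2
      omega
    rw [e1] at h3
    have h4 : 2 ^ 2 ^ f * y₁ ≡ 1 * y₁ [MOD EE f] := (pow_modEq f).mul_right _
    rw [one_mul] at h4
    have h5 : y₁ ≡ 2 ^ (2 ^ f - c) * y [MOD EE f] := (h3.trans h4).symm
    rw [hE] at h5
    have := uniq_aux hM (by omega) hy₁ hyl₁ hyl h5
    omega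

/-- uniqueness: odd `y, y₁ < 2 ^ 2 ^ (f - 1)` and `2 ^ i * y ≡ 2 ^ j * y₁` modulo `EE f` -/
lemma uniq {f y y₁ i j : ℕ} (hf : 0 < f) (hy : y % 2 = 1) (hy₁ : y₁ % 2 = 1)
    (hyl : y < 2 ^ 2 ^ (f - 1)) (hyl₁ : y₁ < 2 ^ 2 ^ (f - 1))
    (h : 2 ^ i * y ≡ 2 ^ j * y₁ [MOD EE f]) : y = y₁ ∧ i ≡ j [MOD 2 ^ f] := by
  have hp : 0 < 2 ^ f := by positivity
  have ei : 2 ^ i ≡ 2 ^ (i % 2 ^ f) [MOD EE f] := pow_modEq_pow (Nat.mod_modEq _ _).symm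
  have ej : 2 ^ j ≡ 2 ^ (j % 2 ^ f) [MOD EE f] := pow_modEq_pow (Nat.mod_modEq _ _).symm
  have h1 : 2 ^ (i % 2 ^ f) * y ≡ 2 ^ (j % 2 ^ f) * y₁ [MOD EE f] :=
    ((ei.mul_right y).symm.trans h).trans (ej.mul_right y₁)
  rcases le_total (i % 2 ^ f) (j % 2 ^ f) with hle | hle
  · have := uniq_aux2 hf hy hy₁ hyl hyl₁ hle (Nat.mod_lt _ hp) h1
    exact ⟨this.1, this.2⟩
  · have := uniq_aux2 hf hy₁ hy hyl₁ hyl hle (Nat.mod_lt _ hp) h1.symm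
    exact ⟨this.1.symm, this.2.symm⟩

/-- uniqueness for matches -/
lemma Mt_uniq {h n y i y₁ i₁ : ℕ} (h1 : Mt h n y i) (h2 : Mt h n y₁ i₁) : y = y₁ ∧ i = i₁ := by
  obtain ⟨a1, a2, _, a4, a5⟩ := h1
  obtain ⟨b1, b2, _, b4, b5⟩ := h2
  have hl := le_pow_fl (kk n) h
  have e : 2 ^ i * y ≡ 2 ^ i₁ * y₁ [MOD EE (fl (kk n) h)] := by
    unfold Nat.ModEq
    rw [← a5, ← b5]
  have := uniq (fl_pos _ _) a1 b1 (by omega) (by omega) e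
  refine ⟨this.1, ?_⟩
  have h3 := this.2
  unfold Nat.ModEq at h3
  rwa [Nat.mod_eq_of_lt a4, Nat.mod_eq_of_lt b4] at h3

end Pool.Agent.HTC
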