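import Mathlib
import Pool.Agent.HTC.Doub
import Pool.Agent.HTC.Uniq

/-! The rules for the colour of a number whose odd part is large. -/

namespace Pool.Agent.HTC

open Pool.Agent.H55.HT3

variable {st : ℕ → ℕ → ℕ} {hl : ℕ → ℕ} {c : ℕ → ZMod 2}

lemma IsCol.pow_mul (hc : IsCol st c) {n : ℕ} (a : ℕ) (hn : 0 < n) : c (2 ^ a * n) = c n + a := by
  induction a with
  | zero => simp
  | succ a ih =>
    have h1 : 2 ^ (a + 1) * n = 2 * (2 ^ a * n) := by ring
    rw [h1, hc.two_mul _ (by positivity), ih]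
    push_cast
    ring

lemma IsCol.low_op (hc : IsCol st c) {n : ℕ} (hn : 0 < n) : c n = c (op n) + low n := by
  conv_lhs => rw [← op_mul hn]
  exact hc.pow_mul _ (op_pos hn)

/-- shifting the exponent modulo `2 ^ f` -/
lemma rule_shift {n f v l y : ℕ} (h : 2 ^ v * n ≡ 2 ^ l * y [MOD EE f]) :
    ∃ i, i < 2 ^ f ∧ i + v ≡ l [MOD 2 ^ f] ∧ n ≡ 2 ^ i * y [MOD EE f] := by
  have hp : 0 < 2 ^ f := by positivity
  obtain ⟨i, hi⟩ : ∃ i, i = (l + (2 ^ f - v % 2 ^ f)) % 2 ^ f := ⟨_, rfl⟩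
  have hi1 : i < 2 ^ f := by rw [hi]; exact Nat.mod_lt _ hp
  have hi2 : i + v ≡ l [MOD 2 ^ f] := by
    have hv : v % 2 ^ f < 2 ^ f := Nat.mod_lt _ hp
    have h1 : i ≡ l + (2 ^ f - v % 2 ^ f) [MOD 2 ^ f] := by rw [hi]; exact Nat.mod_modEq _ _
    have h2 : v ≡ v % 2 ^ f [MOD 2 ^ f] := (Nat.mod_modEq _ _).symm
    have h3 := h1.add h2
    have h4 : l + (2 ^ f - v % 2 ^ f) + v % 2 ^ f = l + 2 ^ f := by omega
    rw [h4] at h3
    refine h3.trans ?_
    unfold Nat.ModEq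
    rw [Nat.add_mod_right]
  refine ⟨i, hi1, hi2, ?_⟩
  apply modEq_cancel_pow (a := v)
  refine h.trans ?_
  have h5 : 2 ^ v * (2 ^ i * y) = 2 ^ (i + v) * y := by ring
  rw [h5]
  exact (pow_modEq_pow hi2).symm.mul_right y

/-- rule (i) -/
lemma rule_mt (hst : IsStg st hl) (hc : IsCol st c) {n k y l : ℕ} (hn : 0 < n) (hk : kk n = k)
    (hh : hl k ≤ op n) (hy : y % 2 = 1) (hyl : y < hl k) (hky : kk y = k)
    (h : n ≡ 2 ^ l * y [MOD EE (fl k (hl k))]) :
    c n = (l : ZMod 2) + 1 + c y + SS (pr (hl k)) (op n) y := by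
  have hko : kk (op n) = k := by rw [kk_op hn, hk]
  have hstv : st (op n) (kk (op n)) = hl k := by rw [hko]; exact hst.lim _ _ hh
  have h' : 2 ^ low n * op n ≡ 2 ^ l * y [MOD EE (fl k (hl k))] := by rw [op_mul hn]; exact h
  obtain ⟨i, hi1, hi2, hi3⟩ := rule_shift h'
  have hM : Mt (st (op n) (kk (op n))) (op n) y i := by
    rw [hstv]
    refine ⟨hy, hyl, by rw [hky, hko], by rw [hko]; exact hi1, ?_⟩
    rw [hko]
    exact hi3
  have h1 := hc.mt (op n) y i (op_odd hn) hM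
  rw [hstv] at h1
  rw [hc.low_op hn, h1, ← cast_eq_of_modEq (fl_pos _ _) hi2]
  push_cast
  ring

/-- rule (ii) -/
lemma rule_dd (hst : IsStg st hl) (hc : IsCol st c) {n k : ℕ} (hn : 0 < n) (hk : kk n = k)
    (hh : hl k ≤ op n) (h : ∀ y l, y % 2 = 1 → y < hl k → kk y = k →
      ¬ n ≡ 2 ^ l * y [MOD EE (fl k (hl k))]) :
    c n = DD k n := by
  have hko : kk (op n) = k := by rw [kk_op hn, hk]
  have hstv : st (op n) (kk (op n)) = hl k := by rw [hko]; exact hst.lim _ _ hh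
  have hM : ∀ y i, ¬ Mt (st (op n) (kk (op n))) (op n) y i := by
    intro y i hM
    rw [hstv] at hM
    obtain ⟨a1, a2, a3, a4, a5⟩ := hM
    rw [hko] at a3 a4 a5
    apply h y (low n + i) a1 a2 a3
    have h1 : op n ≡ 2 ^ i * y [MOD EE (fl k (hl k))] := a5
    have h2 := h1.mul_left (2 ^ low n)
    rw [op_mul hn] at h2
    rw [pow_add, mul_assoc]
    exact h2
  have h1 := hc.dd (op n) (op_odd hn) hM
  rw [hko] at h1
  have hnd : ¬ FF k ∣ op n := by
    have := not_FF_dvd (op_pos hn)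
    rw [hko] at this
    exact this
  rw [hc.low_op hn, h1]
  conv_rhs => rw [← op_mul hn]
  rw [DD_pow_mul _ hnd]

/-- flipping -/
lemma star (hst : IsStg st hl) (hc : IsCol st c) {n m k : ℕ} (hn : 0 < n) (hm : 0 < m)
    (hk : kk n = k) (hh : hl k ≤ op n) (hh' : hl k ≤ op m)
    (h : m ≡ 2 * n [MOD EE (fl k (hl k))])
    (hS : ∀ y l, y % 2 = 1 → y < hl k → kk y = k → n ≡ 2 ^ l * y [MOD EE (fl k (hl k))] →
      SS (pr (hl k)) (op m) y = SS (pr (hl k)) (op n) y) :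
    c m = c n + 1 := by
  have hkm : kk m = k := by
    have h1 := kk_congr (f := fl k (hl k)) hm (n := 2 * n) (by omega)
      (by rw [kk_two_mul hn, hk]; exact fl_gt _ _) h
    rw [h1, kk_two_mul hn, hk]
  by_cases hex : ∃ y l, y % 2 = 1 ∧ y < hl k ∧ kk y = k ∧ n ≡ 2 ^ l * y [MOD EE (fl k (hl k))]
  · obtain ⟨y, l, hy, hyl, hky, hnl⟩ := hex
    have hml : m ≡ 2 ^ (l + 1) * y [MOD EE (fl k (hl k))] := by
      have e : 2 ^ (l + 1) * y = 2 * (2 ^ l * y) := by ring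
      rw [e]
      exact h.trans (hnl.mul_left 2)
    rw [rule_mt hst hc hm hkm hh' hy hyl hky hml, rule_mt hst hc hn hk hh hy hyl hky hnl,
      hS y l hy hyl hky hnl]
    push_cast
    ring
  · push Not at hex
    have h1 := rule_dd hst hc hn hk hh hex
    have h2 : c m = DD k m := by
      apply rule_dd hst hc hm hkm hh'
      intro y l hy hyl hky hml
      have e1 : 2 ^ 1 * n ≡ 2 ^ l * y [MOD EE (fl k (hl k))] := by
        rw [pow_one]
        exact h.symm.trans hml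
      obtain ⟨i, _, _, hi⟩ := rule_shift e1
      exact hex y i hy hyl hky hi
    have hnd : ¬ FF k ∣ n := by
      have := not_FF_dvd hn
      rw [hk] at this
      exact this
    have hFE : FF k ∣ EE (fl k (hl k)) :=
      dvd_trans (Dvd.intro_left (EE k) (EE_succ k).symm) (EE_dvd (fl_gt k (hl k)))
    rw [h2, h1, DD_congr (Nat.ModEq.of_dvd hFE h), DD_two_mul hnd]

end Pool.Agent.HTC
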