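import Mathlib
import Pool.Agent.HTC.Num

/-! Stability of the spikes under sums of two elements of an infinite set. -/

namespace Pool.Agent.HTC

open Pool.Agent.H55.HT3

lemma stab_fib {X : Set ℕ} (hX : X.Infinite) (f : ℕ → ℕ) (B : ℕ) (hB : ∀ x ∈ X, f x < B) :
    ∃ b, {x ∈ X | f x = b}.Infinite := by
  by_contra hc
  push Not at hc
  apply hX
  have h1 : (⋃ b ∈ Finset.range B, {x ∈ X | f x = b}).Finite := by
    apply Set.Finite.biUnion (Finset.finite_toSet (Finset.range B))
    intro b _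
    exact hc b
  apply h1.subset
  intro x hx
  simp only [Set.mem_iUnion, Set.mem_ofPred_eq, Finset.mem_range, exists_prop]
  exact ⟨f x, hB x hx, hx, rfl⟩

lemma stab_gt {X : Set ℕ} (hX : X.Infinite) (x : ℕ) : ∃ z ∈ X, x < z := by
  obtain ⟨z, hz, h⟩ := hX.exists_gt x
  exact ⟨z, hz, h⟩

lemma stab_SS_eq {M a b y : ℕ} (h : op (a - y) ≡ op (b - y) [MOD 2 ^ M]) :
    SS M a y = SS M b y := by
  unfold SS
  unfold Nat.ModEq at h
  rw [h]

lemma stab_lt_low {n x : ℕ} (hn : 0 < n) (h : x < low n) : x < n := by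
  have h1 := two_pow_low_le hn
  have h2 := Nat.lt_two_pow_self (n := low n)
  omega

/-- the case of unbounded valuations -/
lemma stab_unbounded {X : Set ℕ} (hX : X.Infinite) {h y M : ℕ} (hyh : y < h)
    (hpos : ∀ x ∈ X, 0 < x) (hbig : ∀ x ∈ X, h ≤ op x)
    (hu : ∀ B, ∃ x ∈ X, B ≤ low x) :
    ∃ x ∈ X, ∃ z ∈ X, x < z ∧ h ≤ op (x + z) ∧ SS M (op (x + z)) y = SS M (op x) y := by
  obtain ⟨x, hx⟩ := hX.nonempty
  obtain ⟨z, hz, hzl⟩ := hu (x + low x + low (op x - y) + M + 1)
  have hx0 := hpos x hx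
  have hz0 := hpos z hz
  have hxz : x < z := stab_lt_low hz0 (by omega)
  have hbx := hbig x hx
  have e1 : z = 2 ^ low z * op z := (op_mul hz0).symm
  have e2 : op (x + z) = op x + 2 ^ (low z - low x) * op z := by
    conv_lhs => rw [e1]
    exact op_add_far hx0 (by omega)
  have e3 : op (x + z) - y = (op x - y) + 2 ^ (low z - low x) * op z := by
    rw [e2]; omega
  have e4 : op (op (x + z) - y) =
      op (op x - y) + 2 ^ (low z - low x - low (op x - y)) * op z := by
    rw [e3]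
    exact op_add_far (by omega) (by omega)
  refine ⟨x, hx, z, hz, hxz, ?_, ?_⟩
  · rw [e2]; omega
  · apply stab_SS_eq
    rw [e4]
    have e5 : 2 ^ (low z - low x - low (op x - y)) =
        2 ^ M * 2 ^ (low z - low x - low (op x - y) - M) := by
      rw [← pow_add]; congr 1; omega
    rw [e5, mul_assoc]
    unfold Nat.ModEq
    rw [Nat.add_mul_mod_self_left]

/-- from the odd parts to the numbers -/
lemma stab_finish {X : Set ℕ} {h y M b x z w : ℕ} (hx : x ∈ X) (hz : z ∈ X) (hxz : x < z)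
    (hx0 : 0 < x) (hz0 : 0 < z) (hlx : low x = b) (hlz : low z = b) (hbx : h ≤ op x)
    (hbz : h ≤ op z)
    (hw : op x + op z = 2 * w) (hwo : w % 2 = 1)
    (hM : op (w - y) ≡ op (op x - y) [MOD 2 ^ M]) :
    ∃ x ∈ X, ∃ z ∈ X, x < z ∧ h ≤ op (x + z) ∧ SS M (op (x + z)) y = SS M (op x) y := by
  have e1 : op (x + z) = w := by
    have : x + z = 2 ^ (b + 1) * w := by
      calc x + z = 2 ^ low x * op x + 2 ^ low z * op z := by rw [op_mul hx0, op_mul hz0]
        _ = 2 ^ (b + 1) * w := by rw [hlx, hlz, ← mul_add, hw, pow_succ]; ring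
    rw [this]
    exact op_pow_mul _ hwo
  refine ⟨x, hx, z, hz, hxz, ?_, ?_⟩
  · rw [e1]; omega
  · apply stab_SS_eq
    rw [e1]
    exact hM

/-- In an infinite set of positive numbers with odd parts at least `h > y` there are `x < z` such
that `x + z` has odd part at least `h` and the spike value of `x + z` at `y` is that of `x`. -/
lemma stab {X : Set ℕ} (hX : X.Infinite) {h y M : ℕ} (hy : y % 2 = 1) (hyh : y < h)
    (hpos : ∀ x ∈ X, 0 < x) (hbig : ∀ x ∈ X, h ≤ op x) :
    ∃ x ∈ X, ∃ z ∈ X, x < z ∧ h ≤ op (x + z) ∧ SS M (op (x + z)) y = SS M (op x) y := by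
  by_cases hu : ∀ B, ∃ x ∈ X, B ≤ low x
  · exact stab_unbounded hX hyh hpos hbig hu
  push Not at hu
  obtain ⟨B, hB⟩ := hu
  obtain ⟨b, hXb⟩ := stab_fib hX low B hB
  set X1 := {x ∈ X | low x = b} with hX1
  by_cases hv : ∀ D, ∃ x ∈ X1, D ≤ low (op x - y)
  · obtain ⟨x, ⟨hx, hlx⟩, hd⟩ := hv 2
    obtain ⟨z, ⟨hz, hlz⟩, he⟩ := hv (low (op x - y) + M + 2 + x)
    have hx0 := hpos x hx
    have hz0 := hpos z hz
    have hbx := hbig x hx
    have hbz := hbig z hz
    have hxz : x < z := by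
      have h1 : x < op z - y := stab_lt_low (by omega) (by omega)
      have h2 : op z ≤ z := op_le
      omega
    have hp : 2 ^ low (op x - y) * op (op x - y) = op x - y := op_mul (by omega)
    have hq : 2 ^ low (op z - y) * op (op z - y) = op z - y := op_mul (by omega)
    have hpo : op (op x - y) % 2 = 1 := op_odd (by omega)
    generalize low (op x - y) = d at *
    generalize low (op z - y) = e at *
    generalize hp1 : op (op x - y) = p1 at *
    generalize op (op z - y) = q1 at *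
    obtain ⟨d', rfl⟩ : ∃ d', d = d' + 2 := ⟨d - 2, by omega⟩
    obtain ⟨g, rfl⟩ : ∃ g, e = d' + 2 + M + 2 + g := ⟨e - (d' + 2 + M + 2), by omega⟩
    have hodd : (p1 + 2 ^ (M + 2 + g) * q1) % 2 = 1 := by
      have : 2 ^ (M + 2 + g) * q1 = 2 * (2 ^ (M + 1 + g) * q1) := by
        rw [show M + 2 + g = (M + 1 + g) + 1 by ring, pow_succ]; ring
      omega
    have hw : op x + op z = 2 * (y + 2 ^ (d' + 1) * (p1 + 2 ^ (M + 2 + g) * q1)) := by
      have h1 : op x = y + 2 ^ (d' + 2) * p1 := by omega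
      have h2 : op z = y + 2 ^ (d' + 2 + M + 2 + g) * q1 := by omega
      rw [h1, h2]
      ring
    refine stab_finish hx hz hxz hx0 hz0 hlx hlz hbx hbz hw ?_ ?_
    · have : 2 ^ (d' + 1) * (p1 + 2 ^ (M + 2 + g) * q1) =
          2 * (2 ^ d' * (p1 + 2 ^ (M + 2 + g) * q1)) := by
        rw [pow_succ]; ring
      omega
    · rw [Nat.add_sub_cancel_left, op_pow_mul _ hodd, hp1]
      rw [show M + 2 + g = M + (2 + g) by ring, pow_add, mul_assoc]
      unfold Nat.ModEq
      rw [Nat.add_mul_mod_self_left]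
  · push Not at hv
    obtain ⟨D, hD⟩ := hv
    obtain ⟨d, hXd⟩ := stab_fib hXb (fun x => low (op x - y)) D hD
    obtain ⟨r, hXr⟩ := stab_fib hXd (fun x => op x % 2 ^ (d + M + 2)) (2 ^ (d + M + 2))
      (fun x _ => Nat.mod_lt _ (by positivity))
    obtain ⟨x, hxr⟩ := hXr.nonempty
    obtain ⟨z, hzr, hxz⟩ := stab_gt hXr x
    obtain ⟨⟨⟨hx, hlx⟩, hdx⟩, hrx⟩ := hxr
    obtain ⟨⟨⟨hz, hlz⟩, hdz⟩, hrz⟩ := hzr

    have hx0 := hpos x hx
    have hz0 := hpos z hz
    have hbx := hbig x hx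
    have hbz := hbig z hz
    have hpq : op x < op z := by
      have h1 := op_mul hx0
      have h2 := op_mul hz0
      rw [hlx] at h1
      rw [hlz] at h2
      by_contra hc
      have : 2 ^ b * op z ≤ 2 ^ b * op x := Nat.mul_le_mul_left _ (by omega)
      omega
    obtain ⟨c, hc⟩ : ∃ c, op z = op x + 2 ^ (d + M + 2) * c := by
      have h1 : 2 ^ (d + M + 2) ∣ op z - op x :=
        (Nat.modEq_iff_dvd' hpq.le).mp (by unfold Nat.ModEq; rw [hrx, hrz])
      obtain ⟨c, hc⟩ := h1
      exact ⟨c, by omega⟩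
    have hxo : op x % 2 = 1 := op_odd hx0
    have hd1 : 1 ≤ d := by
      rw [← hdx]
      apply le_low (by omega)
      omega
    have hp : 2 ^ low (op x - y) * op (op x - y) = op x - y := op_mul (by omega)
    have hpo : op (op x - y) % 2 = 1 := op_odd (by omega)
    rw [hdx] at hp
    generalize hp1 : op (op x - y) = p1 at *
    have hodd : (p1 + 2 ^ (M + 1) * c) % 2 = 1 := by
      have : 2 ^ (M + 1) * c = 2 * (2 ^ M * c) := by rw [pow_succ]; ring
      omega
    have hw : op x + op z = 2 * (op x + 2 ^ (d + M + 1) * c) := by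
      rw [hc, show d + M + 2 = (d + M + 1) + 1 by ring, pow_succ]; ring
    refine stab_finish hx hz hxz hx0 hz0 hlx hlz hbx hbz hw ?_ ?_
    · have : 2 ^ (d + M + 1) * c = 2 * (2 ^ (d + M) * c) := by
        rw [pow_succ]; ring
      omega
    · have e1 : op x + 2 ^ (d + M + 1) * c - y = 2 ^ d * (p1 + 2 ^ (M + 1) * c) := by
        have : 2 ^ (d + M + 1) * c = 2 ^ d * (2 ^ (M + 1) * c) := by
          rw [show d + M + 1 = d + (M + 1) by ring, pow_add]; ring
        rw [mul_add, hp, ← this]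
        omega
      rw [e1, op_pow_mul _ hodd, hp1, pow_succ, mul_assoc]
      unfold Nat.ModEq
      rw [Nat.add_mul_mod_self_left]

end Pool.Agent.HTC
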