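import Mathlib
import Pool.Agent.HTC.Rule
import Pool.Agent.HTC.Stab

/-! Case A: a solution has only finitely many elements of each level. -/

namespace Pool.Agent.HTC

open Pool.Agent.H55.HT3

variable {st : ℕ → ℕ → ℕ} {hl : ℕ → ℕ} {c : ℕ → ZMod 2}

/-- pigeonhole: an infinite set has an infinite fibre for a bounded function -/
lemma caseA_pigeon {X : Set ℕ} (hX : X.Infinite) (g : ℕ → ℕ) (N : ℕ) (hg : ∀ x ∈ X, g x < N) :
    ∃ r, {x | x ∈ X ∧ g x = r}.Infinite := by
  by_contra hcon
  push Not at hcon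
  apply hX
  have hfin : (⋃ r ∈ Set.Iio N, {x | x ∈ X ∧ g x = r}).Finite :=
    (Set.finite_Iio N).biUnion (fun r _ => Set.not_infinite.mp (by simpa using hcon r))
  refine hfin.subset ?_
  intro x hx
  simp only [Set.mem_iUnion]
  exact ⟨g x, hg x hx, hx, rfl⟩

/-- case (alpha): no infinite set of elements of level `k` in one residue class with large odd parts -/
lemma caseA_alpha (hst : IsStg st hl) (hc : IsCol st c) {X : Set ℕ} (hs : Sol c X) {k ρ : ℕ}
    (hX : X.Infinite) (hk : ∀ x ∈ X, kk x = k) (hρ : ∀ x ∈ X, x % EE (fl k (hl k)) = ρ)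
    (hbig : ∀ x ∈ X, hl k ≤ op x) : False := by
  obtain ⟨i, h1, h2⟩ := hs
  -- any good pair gives a contradiction
  have key : ∀ x ∈ X, ∀ z ∈ X, x < z → hl k ≤ op (x + z) →
      (∀ y l, y % 2 = 1 → y < hl k → kk y = k → x ≡ 2 ^ l * y [MOD EE (fl k (hl k))] →
        SS (pr (hl k)) (op (x + z)) y = SS (pr (hl k)) (op x) y) → False := by
    intro x hx z hz hxz hop hS
    have hx0 := (h1 x hx).1
    have hcong : x + z ≡ 2 * x [MOD EE (fl k (hl k))] := by
      rw [two_mul]
      apply Nat.ModEq.add_left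
      show z % _ = x % _
      rw [hρ x hx, hρ z hz]
    have := star hst hc hx0 (by omega : 0 < x + z) (hk x hx) (hbig x hx) hop hcong hS
    rw [h2 x hx z hz hxz, (h1 x hx).2] at this
    exact zmod_ne_add_one i this
  by_cases hm : ∃ y l, y % 2 = 1 ∧ y < hl k ∧ kk y = k ∧ ∃ x ∈ X,
      x ≡ 2 ^ l * y [MOD EE (fl k (hl k))]
  · obtain ⟨y, l, hy, hyl, hky, x0, hx0, hx0m⟩ := hm
    obtain ⟨x, hx, z, hz, hxz, hop, hS⟩ := stab (M := pr (hl k)) hX hy hyl
      (fun x hx => (h1 x hx).1) hbig
    refine key x hx z hz hxz hop ?_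
    intro y' l' hy' hyl' hky' hm'
    have hxx0 : x ≡ x0 [MOD EE (fl k (hl k))] := by
      show x % _ = x0 % _
      rw [hρ x hx, hρ x0 hx0]
    have hyy : y' = y := by
      have hle := le_pow_fl k (hl k)
      exact (uniq (fl_pos k (hl k)) hy' hy (lt_of_lt_of_le hyl' hle) (lt_of_lt_of_le hyl hle)
        (hm'.symm.trans (hxx0.trans hx0m))).1
    rw [hyy]
    exact hS
  · push Not at hm
    have hno : ∀ x ∈ X, ∀ y l, y % 2 = 1 → y < hl k → kk y = k →
        ¬ x ≡ 2 ^ l * y [MOD EE (fl k (hl k))] := by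
      intro x hx y l hy hyl hky
      exact hm y l hy hyl hky x hx
    by_cases hh : 1 < hl k
    · obtain ⟨x, hx, z, hz, hxz, hop, -⟩ := stab (M := 0) hX (y := 1) rfl hh
        (fun x hx => (h1 x hx).1) hbig
      refine key x hx z hz hxz hop ?_
      intro y l hy hyl hky hm'
      exact absurd hm' (hno x hx y l hy hyl hky)
    · obtain ⟨x, hx⟩ := hX.nonempty
      obtain ⟨z, hz, hxz⟩ := hX.exists_gt x
      have hpos : 0 < op (x + z) := op_pos (by have := (h1 x hx).1; omega)
      refine key x hx z hz hxz (by omega) ?_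
      intro y l hy hyl hky hm'
      exact absurd hm' (hno x hx y l hy hyl hky)

/-- case (beta): no infinite set of elements of level `k` with the same small odd part -/
lemma caseA_beta (hst : IsStg st hl) (hc : IsCol st c) {X : Set ℕ} (hs : Sol c X) {k u : ℕ}
    (hX : X.Infinite) (hk : ∀ x ∈ X, kk x = k) (hu : ∀ x ∈ X, op x = u) (hul : u < hl k) :
    False := by
  obtain ⟨i, h1, h2⟩ := hs
  set h := hl k with hh
  set f := fl k h with hf
  -- two elements with congruent exponents
  obtain ⟨x, hx, z, hz, hne, hmod⟩ := hX.exists_ne_map_eq_of_mapsTo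
    (f := fun x => low x % 2 ^ f) (t := Set.Iio (2 ^ f))
    (fun x _ => Nat.mod_lt _ (by positivity)) (Set.finite_Iio _)
  have main : ∀ x ∈ X, ∀ z ∈ X, x < z → low x % 2 ^ f = low z % 2 ^ f → False := by
    intro x hx z hz hxz hmod
    have hx0 := (h1 x hx).1
    have hz0 := (h1 z hz).1
    have hxe : 2 ^ low x * u = x := by rw [← hu x hx]; exact op_mul hx0
    have hze : 2 ^ low z * u = z := by rw [← hu z hz]; exact op_mul hz0
    have hu1 : u % 2 = 1 := by rw [← hu x hx]; exact op_odd hx0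
    have hupos : 0 < u := by omega
    have hlow : low x < low z := by
      by_contra hcon
      push Not at hcon
      have : 2 ^ low z * u ≤ 2 ^ low x * u :=
        Nat.mul_le_mul_right _ (Nat.pow_le_pow_right (by norm_num) hcon)
      rw [hxe, hze] at this
      omega
    obtain ⟨e, he⟩ : ∃ e, low z = low x + e := ⟨low z - low x, by omega⟩
    have hdvd : 2 ^ f ∣ e := by
      have h3 : low x ≡ low x + e [MOD 2 ^ f] := by rw [← he]; exact hmod
      have h4 : low x + 0 ≡ low x + e [MOD 2 ^ f] := by simpa using h3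
      have h5 := Nat.ModEq.add_left_cancel' _ h4
      exact (Nat.modEq_zero_iff_dvd).mp h5.symm
    have he0 : 0 < e := by omega
    have hle : 2 ^ f ≤ e := Nat.le_of_dvd he0 hdvd
    have hfh : h < f := by rw [hf]; unfold fl; omega
    have hhe : h < 2 ^ e := by
      have h6 : f < 2 ^ f := Nat.lt_two_pow_self
      have h7 : e < 2 ^ e := Nat.lt_two_pow_self
      omega
    have h2e : 2 ^ e ≡ 1 [MOD EE f] := by
      have h8 : e ≡ 0 [MOD 2 ^ f] := (Nat.modEq_zero_iff_dvd).mpr hdvd
      simpa using pow_modEq_pow h8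
    set w := (1 + 2 ^ e) * u with hw
    have hsum : x + z = 2 ^ low x * w := by
      have h20 : z = 2 ^ (low x + e) * u := by rw [← he]; exact hze.symm
      have h21 : x + z = 2 ^ low x * u + 2 ^ (low x + e) * u := by rw [hxe, ← h20]
      rw [h21, hw, pow_add]
      ring
    have hwodd : w % 2 = 1 := by
      obtain ⟨m, rfl⟩ : ∃ m, e = m + 1 := ⟨e - 1, by omega⟩
      rw [hw, Nat.mul_mod, hu1, pow_succ]
      omega
    have hopw : op (x + z) = w := by rw [hsum]; exact op_pow_mul _ hwodd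
    have hwh : h ≤ op (x + z) := by
      rw [hopw, hw]
      nlinarith
    have hwm : w ≡ 2 * u [MOD EE f] := by
      rw [hw]
      have h9 : (1 + 2 ^ e) * u ≡ (1 + 1) * u [MOD EE f] := (h2e.add_left 1).mul_right u
      simpa using h9
    have hnm : x + z ≡ 2 ^ (low x + 1) * u [MOD EE f] := by
      rw [hsum]
      have h10 := hwm.mul_left (2 ^ low x)
      have h11 : 2 ^ low x * (2 * u) = 2 ^ (low x + 1) * u := by ring
      rwa [h11] at h10
    have hkx : kk x = k := hk x hx
    have hkxz : kk (x + z) = k := by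
      have h12 : x + z ≡ 2 * x [MOD EE f] := by
        have h13 : 2 ^ (low x + 1) * u = 2 * x := by
          rw [pow_succ, mul_comm (2 ^ low x) 2, mul_assoc, hxe]
        rwa [h13] at hnm
      have h14 : kk (2 * x) = k := by rw [kk_two_mul hx0, hkx]
      rw [kk_congr (by omega) (by omega : 0 < 2 * x) (by rw [h14]; exact fl_gt k h) h12, h14]
    have hku : kk u = k := by rw [← hu x hx, kk_op hx0, hkx]
    have hrule := rule_mt hst hc (by omega : 0 < x + z) hkxz hwh hu1 hul hku hnm
    have hSS : SS (pr (hl k)) (op (x + z)) u = 1 := by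
      unfold SS
      rw [if_pos]
      have h15 : op (x + z) - u = 2 ^ e * u := by
        rw [hopw, hw, add_mul, one_mul, Nat.add_sub_cancel_left]
      rw [h15, op_pow_mul _ hu1]
    rw [hSS] at hrule
    have hcx : c x = c u + low x := by
      have := hc.low_op hx0
      rwa [hu x hx] at this
    have hcs : c (x + z) = c x + 1 := by
      rw [hrule, hcx]
      have h16 := zmod_two_add_self (1 : ZMod 2)
      push_cast
      linear_combination h16
    rw [h2 x hx z hz hxz, (h1 x hx).2] at hcs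
    exact zmod_ne_add_one i hcs
  rcases lt_or_gt_of_ne hne with hlt | hgt
  · exact main x hx z hz hlt hmod
  · exact main z hz x hx hgt hmod.symm

lemma caseA (hst : IsStg st hl) (hc : IsCol st c) {X : Set ℕ} (hs : Sol c X) (k : ℕ) :
    {x | x ∈ X ∧ kk x = k}.Finite := by
  by_contra hinf
  have hinf' : {x | x ∈ X ∧ kk x = k}.Infinite := hinf
  by_cases hbig : {x | (x ∈ X ∧ kk x = k) ∧ hl k ≤ op x}.Infinite
  · obtain ⟨ρ, hρ⟩ := caseA_pigeon hbig (fun x => x % EE (fl k (hl k))) (EE (fl k (hl k)))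
      (fun x _ => Nat.mod_lt _ (EE_pos _))
    refine caseA_alpha hst hc (X := {x | x ∈ {x | (x ∈ X ∧ kk x = k) ∧ hl k ≤ op x} ∧
      x % EE (fl k (hl k)) = ρ}) (hs.mono (fun x hx => hx.1.1.1)) hρ (fun x hx => hx.1.1.2)
      (fun x hx => hx.2) (fun x hx => hx.1.2)
  · have hsmall : {x | (x ∈ X ∧ kk x = k) ∧ op x < hl k}.Infinite := by
      by_contra hfin
      apply hinf'
      refine ((Set.not_infinite.mp hbig).union (Set.not_infinite.mp hfin)).subset ?_
      intro x hx
      rcases le_or_gt (hl k) (op x) with h | h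
      · exact Or.inl ⟨hx, h⟩
      · exact Or.inr ⟨hx, h⟩
    obtain ⟨u, hu⟩ := caseA_pigeon hsmall op (hl k) (fun x hx => hx.2)
    have hul : u < hl k := by
      obtain ⟨x, hx⟩ := hu.nonempty
      rw [← hx.2]
      exact hx.1.2
    exact caseA_beta hst hc (X := {x | x ∈ {x | (x ∈ X ∧ kk x = k) ∧ op x < hl k} ∧ op x = u})
      (hs.mono (fun x hx => hx.1.1.1)) hu (fun x hx => hx.1.1.2) (fun x hx => hx.2) hul

/-- the level tends to infinity along solutions -/
lemma kk_large (hst : IsStg st hl) (hc : IsCol st c) {X : Set ℕ} (hs : Sol c X) (f : ℕ) :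
    ∃ N, ∀ x ∈ X, N < x → f ≤ kk x := by
  have hfin : (⋃ k ∈ Set.Iio f, {x | x ∈ X ∧ kk x = k}).Finite :=
    (Set.finite_Iio f).biUnion (fun k _ => caseA hst hc hs k)
  obtain ⟨N, hN⟩ := hfin.bddAbove
  refine ⟨N, fun x hx hNx => ?_⟩
  by_contra hcon
  push Not at hcon
  have : x ∈ (⋃ k ∈ Set.Iio f, {x | x ∈ X ∧ kk x = k}) := by
    simp only [Set.mem_iUnion]
    exact ⟨kk x, hcon, hx, rfl⟩
  have := hN this
  omega

end Pool.Agent.HTC
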