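import Mathlib
import Pool.Agent.HTC.CaseA

/-! Consequences of one unsettled element of a solution. -/

namespace Pool.Agent.HTC

open Pool.Agent.H55.HT3

variable {st : ℕ → ℕ → ℕ} {hl : ℕ → ℕ} {c : ℕ → ZMod 2}

/-- `z` is special for `x` -/
def Special (x z : ℕ) : Prop := low z = low x ∧ ∃ e, 0 < e ∧ op z = (2 ^ e - 1) * op x

/-- `z` hits the spike of `x`: `(x + z)' > x'` and `((x + z)' - x')' ≡ x'` modulo `2 ^ M` -/
def Hits (M x z : ℕ) : Prop := op x < op (x + z) ∧ op (op (x + z) - op x) ≡ op x [MOD 2 ^ M]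

lemma unset_two_pow_sub_one_odd {e : ℕ} (he : 0 < e) : (2 ^ e - 1) % 2 = 1 := by
  obtain ⟨d, rfl⟩ : ∃ d, e = d + 1 := ⟨e - 1, by omega⟩
  have h1 : 0 < 2 ^ d := by positivity
  rw [pow_succ]
  omega

lemma unset (hst : IsStg st hl) (hc : IsCol st c) {X : Set ℕ} (hs : Sol c X) {x : ℕ} (hx : x ∈ X)
    (hun : op x < hl (kk x)) :
    ∃ N, ∀ z ∈ X, N < z → Special x z ∨ Hits (pr (hl (kk x))) x z := by
  obtain ⟨i, hs1, hs2⟩ := id hs
  have hx0 : 0 < x := (hs1 x hx).1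
  obtain ⟨N0, hN0⟩ := kk_large hst hc hs (fl (kk x) (hl (kk x)))
  refine ⟨max N0 x, fun z hz hNz => ?_⟩
  have hz0 : 0 < z := (hs1 z hz).1
  have hNz0 : N0 < z := lt_of_le_of_lt (le_max_left _ _) hNz
  have hxz : x < z := lt_of_le_of_lt (le_max_right _ _) hNz
  have hdvd : EE (fl (kk x) (hl (kk x))) ∣ z := (le_kk hz0).mp (hN0 z hz hNz0)
  have hmod : x + z ≡ x [MOD EE (fl (kk x) (hl (kk x)))] := by
    have h1 : z ≡ 0 [MOD EE (fl (kk x) (hl (kk x)))] := (Nat.modEq_zero_iff_dvd).mpr hdvd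
    simpa using (Nat.ModEq.refl x).add h1
  have hn0 : 0 < x + z := by omega
  have hkk : kk (x + z) = kk x := kk_congr hn0 hx0 (fl_gt _ _) hmod
  have hxe : 2 ^ low x * op x = x := op_mul hx0
  have hne : 2 ^ low (x + z) * op (x + z) = x + z := op_mul hn0
  have hodd : op x % 2 = 1 := op_odd hx0
  have hoddn : op (x + z) % 2 = 1 := op_odd hn0
  by_cases hw : hl (kk x) ≤ op (x + z)
  · right
    have h1 := rule_mt hst hc hn0 hkk hw hodd hun (kk_op hx0) (l := low x) (by rw [hxe]; exact hmod)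
    have h2 : c x = c (op x) + low x := hc.low_op hx0
    have h3 : c (x + z) = c x := by rw [hs2 x hx z hz hxz, (hs1 x hx).2]
    refine ⟨lt_of_lt_of_le hun hw, ?_⟩
    by_contra hcon
    have h4 : SS (pr (hl (kk x))) (op (x + z)) (op x) = 0 := by
      unfold SS
      rw [if_neg]
      exact hcon
    rw [h4, h3, h2] at h1
    have h5 : c (op x) + (low x : ZMod 2) = (c (op x) + (low x : ZMod 2)) + 1 := by
      linear_combination h1
    exact zmod_ne_add_one _ h5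
  · left
    push Not at hw
    have hle := le_pow_fl (kk x) (hl (kk x))
    have h1 := uniq (fl_pos _ _) hoddn hodd (lt_of_lt_of_le hw hle) (lt_of_lt_of_le hun hle)
      (i := low (x + z)) (j := low x) (by rw [hne, hxe]; exact hmod)
    obtain ⟨h2, -⟩ := h1
    have hpos : 0 < op x := op_pos hx0
    have h3 : low x < low (x + z) := by
      by_contra hcon
      push Not at hcon
      have h4 : 2 ^ low (x + z) ≤ 2 ^ low x := Nat.pow_le_pow_right (by norm_num) hcon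
      have h5 : 2 ^ low (x + z) * op (x + z) ≤ 2 ^ low x * op x := by
        rw [h2]; exact Nat.mul_le_mul_right _ h4
      omega
    obtain ⟨e, he⟩ : ∃ e, low (x + z) = low x + e := ⟨low (x + z) - low x, by omega⟩
    have he0 : 0 < e := by omega
    have h6 : z = 2 ^ low x * ((2 ^ e - 1) * op x) := by
      have h7 : 2 ^ low x * (2 ^ e * op x) = x + z := by
        rw [← hne, he, h2, pow_add]; ring
      have h8 : (2 ^ e - 1) * op x = 2 ^ e * op x - op x := by rw [Nat.sub_mul, one_mul]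
      rw [h8, Nat.mul_sub, h7, hxe]
      omega
    have h9 : ((2 ^ e - 1) * op x) % 2 = 1 := by
      rw [Nat.mul_mod, unset_two_pow_sub_one_odd he0, hodd]
    refine ⟨?_, e, he0, ?_⟩
    · conv_lhs => rw [h6]
      exact low_pow_mul _ h9
    · conv_lhs => rw [h6]
      exact op_pow_mul _ h9

/-- large `z` are not special for two elements with distinct odd parts -/
lemma special_uniq {x₁ x₂ : ℕ} (h₁ : 0 < x₁) (h₂ : 0 < x₂) (hne : op x₁ < op x₂) :
    ∃ N, ∀ z, N < z → Special x₁ z → ¬ Special x₂ z := by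
  refine ⟨2 ^ low x₁ * (op x₂ * op x₂), fun z hz hs1 hs2 => ?_⟩
  obtain ⟨hl1, e1, he1, ho1⟩ := hs1
  obtain ⟨-, e2, he2, ho2⟩ := hs2
  have hz0 : 0 < z := by omega
  have hze : 2 ^ low z * op z = z := op_mul hz0
  have hbig : op x₂ * op x₂ < op z := by
    rw [← hze, hl1] at hz
    exact lt_of_mul_lt_mul_left hz (by positivity)
  have hp1 : 0 < op x₁ := op_pos h₁
  have hp2 : 0 < op x₂ := op_pos h₂
  have h1 : 1 ≤ 2 ^ e1 := Nat.one_le_two_pow
  have h2 : 1 ≤ 2 ^ e2 := Nat.one_le_two_pow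
  -- `2 ^ e1 * p1 + p2 = 2 ^ e2 * p2 + p1`
  have heq : 2 ^ e1 * op x₁ + op x₂ = 2 ^ e2 * op x₂ + op x₁ := by
    rw [ho1, Nat.sub_mul, Nat.sub_mul, one_mul, one_mul] at ho2
    have h3 : op x₁ ≤ 2 ^ e1 * op x₁ := Nat.le_mul_of_pos_left _ (by omega)
    have h4 : op x₂ ≤ 2 ^ e2 * op x₂ := Nat.le_mul_of_pos_left _ (by omega)
    omega
  have hmin : 2 ^ min e1 e2 ∣ op x₂ - op x₁ := by
    have h5 : 2 ^ min e1 e2 ∣ 2 ^ e1 * op x₁ :=
      Dvd.dvd.mul_right (pow_dvd_pow 2 (min_le_left _ _)) _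
    have h6 : 2 ^ min e1 e2 ∣ 2 ^ e2 * op x₂ :=
      Dvd.dvd.mul_right (pow_dvd_pow 2 (min_le_right _ _)) _
    have h7 : 2 ^ e1 * op x₁ + (op x₂ - op x₁) = 2 ^ e2 * op x₂ := by omega
    rw [← h7] at h6
    exact (Nat.dvd_add_right h5).mp h6
  have hle : 2 ^ min e1 e2 ≤ op x₂ - op x₁ := Nat.le_of_dvd (by omega) hmin
  have hlt : 2 ^ min e1 e2 < op x₂ := by omega
  rcases le_total e1 e2 with h | h
  · rw [min_eq_left h] at hlt
    have h8 : op z ≤ 2 ^ e1 * op x₁ := by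
      rw [ho1]; exact Nat.mul_le_mul_right _ (Nat.sub_le _ _)
    have h9 : 2 ^ e1 * op x₁ ≤ op x₂ * op x₂ := Nat.mul_le_mul hlt.le hne.le
    omega
  · rw [min_eq_right h] at hlt
    have h8 : op z ≤ 2 ^ e2 * op x₂ := by
      rw [ho2]; exact Nat.mul_le_mul_right _ (Nat.sub_le _ _)
    have h9 : 2 ^ e2 * op x₂ ≤ op x₂ * op x₂ := Nat.mul_le_mul_right _ hlt.le
    omega

end Pool.Agent.HTC
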