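import Mathlib
import Pool.Agent.HTC.Unset
import Pool.Agent.HTC.Ari

/-! Case B: the coding. -/

namespace Pool.Agent.HTC

open Pool.Agent.H55.HT3

variable {st : ℕ → ℕ → ℕ} {hl : ℕ → ℕ} {c : ℕ → ZMod 2}

lemma caseB_pos {X : Set ℕ} (hs : Sol c X) {x : ℕ} (hx : x ∈ X) : 0 < x := by
  obtain ⟨i, h1, _⟩ := hs
  exact (h1 x hx).1

lemma caseB_lt_of {a b : ℕ} (h : 4 * a ^ 6 < b) : a < b := by
  rcases Nat.eq_zero_or_pos a with h0 | h0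
  · rw [h0] at h ⊢; omega
  · have : a ≤ a ^ 6 := Nat.le_self_pow (by norm_num) a
    omega

/-- unbounded valuations: a hit determines the residue of the odd part -/
lemma caseB_hit_far {M x z : ℕ} (hx : 0 < x) (hz : 0 < z) (hlow : low x < low z)
    (h : Special x z ∨ Hits M x z) : op z ≡ op x [MOD 2 ^ M] := by
  rcases h with h | h
  · have := h.1
    omega
  · obtain ⟨_, h2⟩ := h
    have e1 : op (x + z) = op x + 2 ^ (low z - low x) * op z := by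
      conv_lhs => rw [← op_mul hz]
      exact op_add_far hx hlow
    rw [e1, Nat.add_sub_cancel_left, op_pow_mul' _ (op_pos hz), op_of_odd (op_odd hz)] at h2
    exact h2

/-- unbounded valuations -/
lemma caseB1 (hst : IsStg st hl) (hc : IsCol st c) {X : Set ℕ} (hs : Sol c X)
    (hv : ∀ v, ∃ x ∈ X, v < low x) {k x₁ x₂ x₃ x₄ : ℕ} (h₁ : x₁ ∈ X) (h₂ : x₂ ∈ X) (h₃ : x₃ ∈ X)
    (h₄ : x₄ ∈ X) (hA : Adm k x₁ x₂ x₃ x₄) : hl k ≤ op x₄ := by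
  by_contra hcon
  obtain ⟨⟨k₁, k₂, k₃, k₄⟩, g1, g2, g3⟩ := hA
  have l1 := caseB_lt_of g1
  have l2 := caseB_lt_of g2
  have l3 := caseB_lt_of g3
  have p₁ := caseB_pos hs h₁
  have p₂ := caseB_pos hs h₂
  have m₁ := hst.mono _ _ k₁
  have m₂ := hst.mono _ _ k₂
  obtain ⟨N₁, hN₁⟩ := unset hst hc hs h₁ (by omega)
  obtain ⟨N₂, hN₂⟩ := unset hst hc hs h₂ (by omega)
  obtain ⟨z, hz, hlow⟩ := hv (N₁ + N₂ + low x₁ + low x₂)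
  have pz := caseB_pos hs hz
  have hzl : low z < z := lt_of_lt_of_le (Nat.lt_two_pow_self (n := low z)) (two_pow_low_le pz)
  have r₁ := caseB_hit_far p₁ pz (by omega) (hN₁ z hz (by omega))
  have r₂ := caseB_hit_far p₂ pz (by omega) (hN₂ z hz (by omega))
  have d₁ : 2 ^ hl k ∣ 2 ^ pr (hl (kk x₁)) := pow_dvd_pow 2 (by unfold pr; omega)
  have d₂ : 2 ^ hl k ∣ 2 ^ pr (hl (kk x₂)) := pow_dvd_pow 2 (by unfold pr; omega)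
  have r₃ : op x₁ ≡ op x₂ [MOD 2 ^ hl k] :=
    ((Nat.ModEq.of_dvd d₁ r₁).symm).trans (Nat.ModEq.of_dvd d₂ r₂)
  have hlt : hl k < 2 ^ hl k := Nat.lt_two_pow_self
  have := Nat.ModEq.eq_of_lt_of_lt r₃ (by omega) (by omega)
  omega

/-- constant valuation: a hit in terms of the odd parts -/
lemma caseB_hit_same {M M' x z : ℕ} (hx : 0 < x) (hz : 0 < z) (hlow : low z = low x) (hM : M' ≤ M)
    (h : Hits M x z) :
    op x < op (op x + op z) ∧ op (op (op x + op z) - op x) ≡ op x [MOD 2 ^ M'] := by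
  have e1 : op (x + z) = op (op x + op z) := by
    have e2 : x + z = 2 ^ low x * (op x + op z) := by
      rw [mul_add, op_mul hx, ← hlow, op_mul hz]
    rw [e2, op_pow_mul' _ (by have := op_pos hx; omega)]
  obtain ⟨h1, h2⟩ := h
  rw [e1] at h1 h2
  exact ⟨h1, Nat.ModEq.of_dvd (pow_dvd_pow 2 hM) h2⟩

lemma caseB_three {k b x₁ x₂ x₃ z M₁ M₂ M₃ : ℕ} (h₁ : 0 < x₁) (h₂ : 0 < x₂) (h₃ : 0 < x₃)
    (hz : 0 < z) (v₁ : low x₁ = b) (v₂ : low x₂ = b) (v₃ : low x₃ = b) (vz : low z = b)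
    (l₁ : op x₁ < hl k) (l₂ : op x₂ < hl k) (l₃ : op x₃ < hl k)
    (m₁ : hl k + 20 ≤ M₁) (m₂ : hl k + 20 ≤ M₂) (m₃ : hl k + 20 ≤ M₃)
    (g₁ : 4 * op x₁ ^ 6 < op x₂) (g₂ : 4 * op x₂ ^ 6 < op x₃)
    (H₁ : Hits M₁ x₁ z) (H₂ : Hits M₂ x₂ z) (H₃ : Hits M₃ x₃ z) : False := by
  obtain ⟨a₁, b₁⟩ := caseB_hit_same h₁ hz (by rw [vz, v₁]) m₁ H₁
  obtain ⟨a₂, b₂⟩ := caseB_hit_same h₂ hz (by rw [vz, v₂]) m₂ H₂
  obtain ⟨a₃, b₃⟩ := caseB_hit_same h₃ hz (by rw [vz, v₃]) m₃ H₃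
  exact three_hits (le_refl (hl k + 20)) (op_odd h₁) (op_odd h₂) (op_odd h₃) (op_odd hz) l₁ l₂ l₃
    g₁ g₂ a₁ b₁ a₂ b₂ a₃ b₃

/-- constant valuation -/
lemma caseB2 (hst : IsStg st hl) (hc : IsCol st c) {X : Set ℕ} (hX : X.Infinite) (hs : Sol c X) {b : ℕ}
    (hv : ∀ x ∈ X, low x = b) {k x₁ x₂ x₃ x₄ : ℕ} (h₁ : x₁ ∈ X) (h₂ : x₂ ∈ X) (h₃ : x₃ ∈ X)
    (h₄ : x₄ ∈ X) (hA : Adm k x₁ x₂ x₃ x₄) : hl k ≤ op x₄ := by
  by_contra hcon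
  obtain ⟨⟨k₁, k₂, k₃, k₄⟩, g1, g2, g3⟩ := hA
  have l1 := caseB_lt_of g1
  have l2 := caseB_lt_of g2
  have l3 := caseB_lt_of g3
  have p₁ := caseB_pos hs h₁
  have p₂ := caseB_pos hs h₂
  have p₃ := caseB_pos hs h₃
  have p₄ := caseB_pos hs h₄
  have m₁ := hst.mono _ _ k₁
  have m₂ := hst.mono _ _ k₂
  have m₃ := hst.mono _ _ k₃
  have m₄ := hst.mono _ _ k₄
  obtain ⟨N₁, hN₁⟩ := unset hst hc hs h₁ (by omega)
  obtain ⟨N₂, hN₂⟩ := unset hst hc hs h₂ (by omega)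
  obtain ⟨N₃, hN₃⟩ := unset hst hc hs h₃ (by omega)
  obtain ⟨N₄, hN₄⟩ := unset hst hc hs h₄ (by omega)
  obtain ⟨K₁₂, hK₁₂⟩ := special_uniq p₁ p₂ (by omega)
  obtain ⟨K₁₃, hK₁₃⟩ := special_uniq p₁ p₃ (by omega)
  obtain ⟨K₁₄, hK₁₄⟩ := special_uniq p₁ p₄ (by omega)
  obtain ⟨K₂₃, hK₂₃⟩ := special_uniq p₂ p₃ (by omega)
  obtain ⟨K₂₄, hK₂₄⟩ := special_uniq p₂ p₄ (by omega)
  obtain ⟨K₃₄, hK₃₄⟩ := special_uniq p₃ p₄ (by omega)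
  obtain ⟨z, hz, hbig⟩ := hX.exists_gt
    (N₁ + N₂ + N₃ + N₄ + K₁₂ + K₁₃ + K₁₄ + K₂₃ + K₂₄ + K₃₄)
  have pz := caseB_pos hs hz
  have s₁ := hN₁ z hz (by omega)
  have s₂ := hN₂ z hz (by omega)
  have s₃ := hN₃ z hz (by omega)
  have s₄ := hN₄ z hz (by omega)
  have t₁₂ := hK₁₂ z (by omega)
  have t₁₃ := hK₁₃ z (by omega)
  have t₁₄ := hK₁₄ z (by omega)
  have t₂₃ := hK₂₃ z (by omega)
  have t₂₄ := hK₂₄ z (by omega)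
  have t₃₄ := hK₃₄ z (by omega)
  have e₁ : hl k + 20 ≤ pr (hl (kk x₁)) := by unfold pr; omega
  have e₂ : hl k + 20 ≤ pr (hl (kk x₂)) := by unfold pr; omega
  have e₃ : hl k + 20 ≤ pr (hl (kk x₃)) := by unfold pr; omega
  have e₄ : hl k + 20 ≤ pr (hl (kk x₄)) := by unfold pr; omega
  have v₁ := hv x₁ h₁
  have v₂ := hv x₂ h₂
  have v₃ := hv x₃ h₃
  have v₄ := hv x₄ h₄
  have vz := hv z hz
  by_cases q₁ : Special x₁ z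
  · -- the elements 2, 3, 4 are hit
    have H₂ := s₂.resolve_left (t₁₂ q₁)
    have H₃ := s₃.resolve_left (t₁₃ q₁)
    have H₄ := s₄.resolve_left (t₁₄ q₁)
    exact caseB_three (hl := hl) (k := k) p₂ p₃ p₄ pz v₂ v₃ v₄ vz (by omega) (by omega) (by omega)
      e₂ e₃ e₄ g2 g3 H₂ H₃ H₄
  · have H₁ := s₁.resolve_left q₁
    by_cases q₂ : Special x₂ z
    · have H₃ := s₃.resolve_left (t₂₃ q₂)
      have H₄ := s₄.resolve_left (t₂₄ q₂)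
      exact caseB_three (hl := hl) (k := k) p₁ p₃ p₄ pz v₁ v₃ v₄ vz (by omega) (by omega) (by omega)
        e₁ e₃ e₄ (by omega) g3 H₁ H₃ H₄
    · have H₂ := s₂.resolve_left q₂
      by_cases q₃ : Special x₃ z
      · have H₄ := s₄.resolve_left (t₃₄ q₃)
        exact caseB_three (hl := hl) (k := k) p₁ p₂ p₄ pz v₁ v₂ v₄ vz (by omega) (by omega)
          (by omega) e₁ e₂ e₄ g1 (by omega) H₁ H₂ H₄
      · have H₃ := s₃.resolve_left q₃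
        exact caseB_three (hl := hl) (k := k) p₁ p₂ p₃ pz v₁ v₂ v₃ vz (by omega) (by omega)
          (by omega) e₁ e₂ e₃ g1 g2 H₁ H₂ H₃

/-- admissible quadruples exist -/
lemma exists_Adm (hst : IsStg st hl) (hc : IsCol st c) {X : Set ℕ} (hX : X.Infinite)
    (hs : Sol c X) (k : ℕ) : ∃ x₁ ∈ X, ∃ x₂ ∈ X, ∃ x₃ ∈ X, ∃ x₄ ∈ X, Adm k x₁ x₂ x₃ x₄ := by
  have key : ∀ B, ∃ x ∈ X, k ≤ kk x ∧ B < op x := by
    intro B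
    obtain ⟨N, hN⟩ := kk_large hst hc hs (max k (B + 1))
    obtain ⟨x, hx, hNx⟩ := hX.exists_gt N
    have h1 := hN x hx hNx
    have h2 := EE_kk_le_op (caseB_pos hs hx)
    have h3 := lt_EE (kk x)
    have h4 := le_max_left k (B + 1)
    have h5 := le_max_right k (B + 1)
    exact ⟨x, hx, by omega, by omega⟩
  obtain ⟨x₁, h₁, k₁, _⟩ := key 0
  obtain ⟨x₂, h₂, k₂, g₁⟩ := key (4 * op x₁ ^ 6)
  obtain ⟨x₃, h₃, k₃, g₂⟩ := key (4 * op x₂ ^ 6)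
  obtain ⟨x₄, h₄, k₄, g₃⟩ := key (4 * op x₃ ^ 6)
  exact ⟨x₁, h₁, x₂, h₂, x₃, h₃, x₄, h₄, ⟨k₁, k₂, k₃, k₄⟩, g₁, g₂, g₃⟩

lemma caseB_fiber {X : Set ℕ} (hX : X.Infinite) (f : ℕ → ℕ) {v : ℕ} (hf : ∀ x ∈ X, f x ≤ v) :
    ∃ b, {x | x ∈ X ∧ f x = b}.Infinite := by
  by_contra hcon
  push Not at hcon
  apply hX
  apply ((Set.finite_Iic v).biUnion (t := fun b => {x | x ∈ X ∧ f x = b})
    (fun b _ => hcon b)).subset
  intro x hx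
  exact Set.mem_biUnion (hf x hx) ⟨hx, rfl⟩

/-- the combinatorial core of the theorem -/
theorem core (hst : IsStg st hl) (hc : IsCol st c) {X : Set ℕ} (hX : X.Infinite) (hs : Sol c X) :
    ∃ Y ⊆ X, (Y = X ∨ ∃ b, Y = {x | x ∈ X ∧ low x = b}) ∧
      (∀ k, ∃ x₁ ∈ Y, ∃ x₂ ∈ Y, ∃ x₃ ∈ Y, ∃ x₄ ∈ Y, Adm k x₁ x₂ x₃ x₄) ∧
      ∀ k, ∀ x₁ ∈ Y, ∀ x₂ ∈ Y, ∀ x₃ ∈ Y, ∀ x₄ ∈ Y, Adm k x₁ x₂ x₃ x₄ → hl k ≤ x₄ := by
  by_cases hv : ∀ v, ∃ x ∈ X, v < low x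
  · refine ⟨X, subset_rfl, Or.inl rfl, exists_Adm hst hc hX hs, ?_⟩
    intro k x₁ h₁ x₂ h₂ x₃ h₃ x₄ h₄ hA
    exact (caseB1 hst hc hs hv h₁ h₂ h₃ h₄ hA).trans op_le
  · push Not at hv
    obtain ⟨v, hv⟩ := hv
    obtain ⟨b, hb⟩ := caseB_fiber hX low hv
    have hsub : {x | x ∈ X ∧ low x = b} ⊆ X := fun x hx => hx.1
    have hs' := hs.mono hsub
    refine ⟨{x | x ∈ X ∧ low x = b}, hsub, Or.inr ⟨b, rfl⟩, exists_Adm hst hc hb hs', ?_⟩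
    intro k x₁ h₁ x₂ h₂ x₃ h₃ x₄ h₄ hA
    exact (caseB2 hst hc hb hs' (fun x hx => hx.2) h₁ h₂ h₃ h₄ hA).trans op_le

end Pool.Agent.HTC
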