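import Mathlib
import Pool.Agent.H55.HT3.Comp
import Pool.Agent.HTC.Uniq

/-!
The coding two-colouring as a function defined by strong recursion, its computability relative to
the events, and the computability of the decoding.
-/

namespace Pool.Agent.HTC

open Pool.Agent.EMP Pool.Agent.H55.HT3

/-! ### The stage function -/

open Classical in
/-- the last stage `t ≤ n` at which an event of value `< k` happens (zero if there is none) -/
noncomputable def stg (R : ℕ → ℕ → Prop) (n k : ℕ) : ℕ :=
  Nat.findGreatest (fun t => ∃ e < k, R t e) n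

lemma stg_le (R : ℕ → ℕ → Prop) (n k : ℕ) : stg R n k ≤ n := by
  classical
  exact Nat.findGreatest_le n

lemma exists_lim {R : ℕ → ℕ → Prop} (hR : ∀ e, ∃ N, ∀ t, R t e → t < N) (k : ℕ) :
    ∃ h, (∀ t e, R t e → e < k → t ≤ h) ∧ (0 < h → ∃ e < k, R h e) := by
  classical
  obtain ⟨N, hN⟩ := exists_Bdd hR k
  refine ⟨stg R N k, ?_, ?_⟩
  · intro t e h1 h2
    have h3 := hN t e h1 h2
    unfold stg
    exact Nat.le_findGreatest (P := fun t => ∃ e < k, R t e) h3.le ⟨e, h2, h1⟩
  · intro h0
    exact Nat.findGreatest_of_ne_zero (P := fun t => ∃ e < k, R t e) (n := N)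
      (m := stg R N k) rfl (by omega)

/-- the limit of the stages -/
noncomputable def lst {R : ℕ → ℕ → Prop} (hR : ∀ e, ∃ N, ∀ t, R t e → t < N) (k : ℕ) : ℕ :=
  Classical.choose (exists_lim hR k)

lemma le_lst {R : ℕ → ℕ → Prop} (hR : ∀ e, ∃ N, ∀ t, R t e → t < N) {k t e : ℕ} (h : R t e)
    (he : e < k) : t ≤ lst hR k := (Classical.choose_spec (exists_lim hR k)).1 t e h he

lemma lst_spec {R : ℕ → ℕ → Prop} (hR : ∀ e, ∃ N, ∀ t, R t e → t < N) {k : ℕ}
    (h : 0 < lst hR k) : ∃ e < k, R (lst hR k) e := (Classical.choose_spec (exists_lim hR k)).2 h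

lemma isStg {R : ℕ → ℕ → Prop} (hR : ∀ e, ∃ N, ∀ t, R t e → t < N) : IsStg (stg R) (lst hR) where
  le := stg_le R
  lim := by
    classical
    intro n k hn
    apply le_antisymm
    · rcases Nat.eq_zero_or_pos (stg R n k) with h | h
      · omega
      · obtain ⟨e, he, h1⟩ := Nat.findGreatest_of_ne_zero (P := fun t => ∃ e < k, R t e) (n := n)
          (m := stg R n k) rfl (by omega)
        exact le_lst hR h1 he
    · rcases Nat.eq_zero_or_pos (lst hR k) with h | h
      · omega
      · unfold stg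
        exact Nat.le_findGreatest (P := fun t => ∃ e < k, R t e) hn (lst_spec hR h)
  mono := by
    intro k k' hk
    rcases Nat.eq_zero_or_pos (lst hR k) with h | h
    · omega
    · obtain ⟨e, he, h1⟩ := lst_spec hR h
      exact le_lst hR h1 (by omega)

lemma stg_congr {R R' : ℕ → ℕ → Prop} {n k : ℕ} (h : ∀ t ≤ n, ∀ e < k, (R t e ↔ R' t e)) :
    stg R n k = stg R' n k := by
  classical
  unfold stg
  have key : ∀ m ≤ n, Nat.findGreatest (fun t => ∃ e < k, R t e) m =
      Nat.findGreatest (fun t => ∃ e < k, R' t e) m := by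
    intro m
    induction m with
    | zero => intro _; simp
    | succ m ih =>
      intro hm
      rw [Nat.findGreatest_succ, Nat.findGreatest_succ, ih (by omega)]
      have e1 : (∃ e < k, R (m + 1) e) ↔ ∃ e < k, R' (m + 1) e :=
        exists_congr (fun e => and_congr_right (fun he => h (m + 1) hm e he))
      by_cases h1 : ∃ e < k, R (m + 1) e
      · rw [if_pos h1, if_pos (e1.mp h1)]
      · rw [if_neg h1, if_neg (fun h2 => h1 (e1.mpr h2))]
  exact key n le_rfl

/-! ### The colouring -/

/-- the residue colouring, as a number -/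
def DN (k n : ℕ) : ℕ := ∑ j ∈ Finset.range (2 ^ k), 2 ^ j * n % FF k

lemma cast_DN (k n : ℕ) : ((DN k n : ℕ) : ZMod 2) = DD k n := by
  unfold DN DD
  push_cast
  rfl

/-- the spikes, as a number -/
def SN (M n y : ℕ) : ℕ := if op (n - y) % 2 ^ M = y % 2 ^ M then 1 else 0

lemma cast_SN (M n y : ℕ) : ((SN M n y : ℕ) : ZMod 2) = SS M n y := by
  unfold SN SS
  split <;> simp

/-- the bound for the codes of matches -/
def bnd (n h : ℕ) : ℕ := (h + 2 ^ fl (kk n) h) * (h + 2 ^ fl (kk n) h)

open Classical in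
/-- search for a match -/
noncomputable def srch (h n : ℕ) : ℕ :=
  Nat.findGreatest (fun q => Mt h n q.unpair.1 q.unpair.2) (bnd n h)

lemma srch_spec {h n y i : ℕ} (hM : Mt h n y i) : srch h n = Nat.pair y i := by
  classical
  have h1 : Nat.pair y i ≤ bnd n h := by
    have h2 := hM.2.1
    have h3 := hM.2.2.2.1
    exact (pair_lt (n := h + 2 ^ fl (kk n) h) (by omega) (by omega)).le
  have h4 : Mt h n (srch h n).unpair.1 (srch h n).unpair.2 := by
    have := Nat.findGreatest_spec (P := fun q => Mt h n q.unpair.1 q.unpair.2)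
      (n := bnd n h) (m := Nat.pair y i) h1 (by simpa only [Nat.unpair_pair] using hM)
    exact this
  obtain ⟨e1, e2⟩ := Mt_uniq h4 hM
  rw [← e1, ← e2, Nat.pair_unpair]

open Classical in
/-- one step of the recursion -/
noncomputable def stp (R : ℕ → ℕ → Prop) (n : ℕ) (p : ℕ → ℕ) : ℕ :=
  if n % 2 = 0 then (p (n / 2) + 1) % 2
  else if Mt (stg R n (kk n)) n (srch (stg R n (kk n)) n).unpair.1
      (srch (stg R n (kk n)) n).unpair.2 then
    ((srch (stg R n (kk n)) n).unpair.2 + 1 + p (srch (stg R n (kk n)) n).unpair.1 +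
      SN (pr (stg R n (kk n))) n (srch (stg R n (kk n)) n).unpair.1) % 2
  else DN (kk n) n % 2

/-- the colouring with values `0` and `1` -/
noncomputable def colR (R : ℕ → ℕ → Prop) (n : ℕ) : ℕ :=
  stp R n (fun m => if _h : m < n then colR R m else 0)
termination_by n
decreasing_by exact _h

lemma colR_lt (R : ℕ → ℕ → Prop) (n : ℕ) : colR R n < 2 := by
  rw [colR]
  unfold stp
  split
  · omega
  · split <;> omega

lemma isCol (R : ℕ → ℕ → Prop) : IsCol (stg R) (fun n => (colR R n : ZMod 2)) where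
  two_mul := by
    intro n hn
    rw [colR]
    unfold stp
    rw [if_pos (by omega)]
    have e : 2 * n / 2 = n := by omega
    rw [e]
    simp only [show n < 2 * n by omega, dif_pos]
    rw [ZMod.natCast_mod]
    push_cast
    rfl
  mt := by
    intro n y i hn hM
    rw [colR]
    unfold stp
    have e1 : (Nat.unpair (Nat.pair y i)).1 = y := by rw [Nat.unpair_pair]
    have e2 : (Nat.unpair (Nat.pair y i)).2 = i := by rw [Nat.unpair_pair]
    rw [if_neg (by omega), srch_spec hM, e1, e2, if_pos hM]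
    have h1 : y < n := lt_of_lt_of_le hM.2.1 (stg_le R n _)
    simp only [h1, dif_pos]
    rw [ZMod.natCast_mod]
    push_cast
    rw [cast_SN]
  dd := by
    intro n hn hM
    rw [colR]
    unfold stp
    rw [if_neg (by omega), if_neg (hM _ _), ZMod.natCast_mod, cast_DN]

lemma kk_le (n : ℕ) : kk n ≤ n := Nat.findGreatest_le n

lemma colR_congr {R R' : ℕ → ℕ → Prop} (n : ℕ) :
    (∀ t < n + 1, ∀ e < n + 1, (R t e ↔ R' t e)) → colR R n = colR R' n := by
  induction n using Nat.strong_induction_on with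
  | _ n ih =>
    intro h
    have hs : stg R n (kk n) = stg R' n (kk n) :=
      stg_congr (fun t ht e he => h t (by omega) e (by have := kk_le n; omega))
    have hp : (fun m => if _h : m < n then colR R m else 0) =
        (fun m => if _h : m < n then colR R' m else 0) := by
      funext m
      by_cases hm : m < n
      · rw [dif_pos hm, dif_pos hm]
        exact ih m hm (fun t ht e he => h t (by omega) e (by omega))
      · rw [dif_neg hm, dif_neg hm]
    rw [colR, colR, hp]
    unfold stp
    rw [hs]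

/-! ### Primitive recursiveness -/

lemma prim_EE : Primrec EE := by
  unfold EE
  exact Primrec.nat_sub.comp (prim_pow.comp (Primrec.const 2)
    (prim_pow.comp (Primrec.const 2) Primrec.id)) (Primrec.const 1)

lemma prim_FF : Primrec FF := by
  unfold FF
  exact Primrec.nat_add.comp (prim_pow.comp (Primrec.const 2)
    (prim_pow.comp (Primrec.const 2) Primrec.id)) (Primrec.const 1)

lemma prim_kk : Primrec kk := by
  unfold kk
  apply Primrec.nat_findGreatest Primrec.id
  exact prim_dvd.comp (prim_EE.comp Primrec.snd) Primrec.fst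

lemma prim_op : Primrec op := by
  unfold op
  exact Primrec.nat_div.comp Primrec.id (prim_pow.comp (Primrec.const 2) prim_low)

lemma prim_fl : Primrec₂ fl := by
  unfold fl
  exact Primrec.succ.comp (Primrec.nat_add.comp Primrec.fst Primrec.snd)

lemma prim_DN : Primrec₂ DN := by
  have h1 : Primrec₂ (fun (w : ℕ × ℕ) (s : ℕ) =>
      ∑ j ∈ Finset.range s, 2 ^ j * w.2 % FF w.1) := by
    have h2 : Primrec₂ (fun (w : ℕ × ℕ) (q : ℕ × ℕ) => q.2 + 2 ^ q.1 * w.2 % FF w.1) := by
      refine Primrec.nat_add.comp (Primrec.snd.comp Primrec.snd) (Primrec.nat_mod.comp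
        (Primrec.nat_mul.comp (prim_pow.comp (Primrec.const 2) (Primrec.fst.comp Primrec.snd))
          (Primrec.snd.comp Primrec.fst)) (prim_FF.comp (Primrec.fst.comp Primrec.fst)))
    refine (Primrec.nat_rec (f := fun _ : ℕ × ℕ => 0) (Primrec.const 0) h2).of_eq (fun w s => ?_)
    induction s with
    | zero => simp
    | succ s ih =>
      rw [Finset.sum_range_succ, ← ih]
  have h3 : Primrec₂ (fun k n : ℕ => (fun (w : ℕ × ℕ) (s : ℕ) =>
      ∑ j ∈ Finset.range s, 2 ^ j * w.2 % FF w.1) (k, n) (2 ^ k)) :=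
    h1.comp Primrec.id (prim_pow.comp (Primrec.const 2) Primrec.fst)
  exact h3

lemma prim_SN : Primrec (fun w : ℕ × ℕ × ℕ => SN w.1 w.2.1 w.2.2) := by
  unfold SN
  have hM : Primrec (fun w : ℕ × ℕ × ℕ => 2 ^ w.1) :=
    prim_pow.comp (Primrec.const 2) Primrec.fst
  have hy : Primrec (fun w : ℕ × ℕ × ℕ => w.2.2) := Primrec.snd.comp Primrec.snd
  apply Primrec.ite _ (Primrec.const 1) (Primrec.const 0)
  exact Primrec.eq.comp (Primrec.nat_mod.comp (prim_op.comp (Primrec.nat_sub.comp
    (Primrec.fst.comp Primrec.snd) hy)) hM) (Primrec.nat_mod.comp hy hM)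

lemma prim_SN' {α : Type*} [Primcodable α] {f g h : α → ℕ} (hf : Primrec f) (hg : Primrec g)
    (hh : Primrec h) : Primrec (fun a => SN (f a) (g a) (h a)) :=
  prim_SN.comp (Primrec.pair hf (Primrec.pair hg hh))

/-- matches: parameters `(h, n)` and the code of `(y, i)` -/
lemma prim_Mt : PrimrecRel (fun (w : ℕ × ℕ) (q : ℕ) => Mt w.1 w.2 q.unpair.1 q.unpair.2) := by
  unfold Mt
  have hy : Primrec (fun p : (ℕ × ℕ) × ℕ => p.2.unpair.1) :=
    Primrec.fst.comp (Primrec.unpair.comp Primrec.snd)
  have hi : Primrec (fun p : (ℕ × ℕ) × ℕ => p.2.unpair.2) :=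
    Primrec.snd.comp (Primrec.unpair.comp Primrec.snd)
  have hh : Primrec (fun p : (ℕ × ℕ) × ℕ => p.1.1) := Primrec.fst.comp Primrec.fst
  have hn : Primrec (fun p : (ℕ × ℕ) × ℕ => p.1.2) := Primrec.snd.comp Primrec.fst
  have hf : Primrec (fun p : (ℕ × ℕ) × ℕ => fl (kk p.1.2) p.1.1) :=
    prim_fl.comp (prim_kk.comp hn) hh
  have hE := prim_EE.comp hf
  apply PrimrecPred.and
  · exact Primrec.eq.comp (Primrec.nat_mod.comp hy (Primrec.const 2)) (Primrec.const 1)
  apply PrimrecPred.and
  · exact Primrec.nat_lt.comp hy hh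
  apply PrimrecPred.and
  · exact Primrec.eq.comp (prim_kk.comp hy) (prim_kk.comp hn)
  apply PrimrecPred.and
  · exact Primrec.nat_lt.comp hi (prim_pow.comp (Primrec.const 2) hf)
  · exact Primrec.eq.comp (Primrec.nat_mod.comp hn hE) (Primrec.nat_mod.comp
      (Primrec.nat_mul.comp (prim_pow.comp (Primrec.const 2) hi) hy) hE)

lemma prim_bnd : Primrec (fun w : ℕ × ℕ => bnd w.2 w.1) := by
  unfold bnd
  have hf : Primrec (fun p : ℕ × ℕ => fl (kk p.2) p.1) :=
    prim_fl.comp (prim_kk.comp Primrec.snd) Primrec.fst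
  have h := Primrec.nat_add.comp (Primrec.fst (α := ℕ) (β := ℕ))
    (prim_pow.comp (Primrec.const 2) hf)
  exact Primrec.nat_mul.comp h h

lemma prim_srch : Primrec (fun w : ℕ × ℕ => srch w.1 w.2) := by
  classical
  unfold srch
  exact Primrec.nat_findGreatest prim_bnd prim_Mt

/-- stages: parameters `(S, n)` and `k` -/
lemma prim_stg : Primrec₂ (fun (w : ℕ × ℕ) (k : ℕ) => stg (RS w.1) w.2 k) := by
  classical
  have h1 : PrimrecRel (fun (e : ℕ) (p : ((ℕ × ℕ) × ℕ) × ℕ) => RS p.1.1.1 p.2 e) := by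
    unfold RS
    exact prim_testBit.comp (Primrec.fst.comp (Primrec.fst.comp (Primrec.fst.comp Primrec.snd)))
      (Primrec₂.natPair.comp (Primrec.snd.comp Primrec.snd) Primrec.fst)
  have h2 : PrimrecRel (fun (w : (ℕ × ℕ) × ℕ) (t : ℕ) => ∃ e < w.2, RS w.1.1 t e) :=
    (exists_lt' h1).comp (Primrec.snd.comp Primrec.fst) Primrec.id
  have h3 := Primrec.nat_findGreatest (f := fun w : (ℕ × ℕ) × ℕ => w.1.2)
    (Primrec.snd.comp Primrec.fst) h2
  refine Primrec.of_eq h3 (fun w => ?_)
  unfold stg
  congr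

lemma getD_map_range (f : ℕ → ℕ) (n m : ℕ) :
    ((List.range n).map f).getD m 0 = if _h : m < n then f m else 0 := by
  by_cases h : m < n
  · rw [dif_pos h, List.getD_eq_getElem?_getD]
    simp [h]
  · rw [dif_neg h, List.getD_eq_getElem?_getD]
    simp [h]

lemma prim_stp : Primrec₂ (fun (S : ℕ) (l : List ℕ) =>
    stp (RS S) l.length (fun m => l.getD m 0)) := by
  classical
  unfold stp
  have hn : Primrec (fun w : ℕ × List ℕ => w.2.length) := Primrec.list_length.comp Primrec.snd
  have hget : ∀ {F : ℕ × List ℕ → ℕ}, Primrec F → Primrec (fun w : ℕ × List ℕ => w.2.getD (F w) 0) :=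
    fun hF => (Primrec.list_getD 0).comp Primrec.snd hF
  have hs : Primrec (fun w : ℕ × List ℕ => stg (RS w.1) w.2.length (kk w.2.length)) :=
    prim_stg.comp (Primrec.pair Primrec.fst hn) (prim_kk.comp hn)
  have hq : Primrec (fun w : ℕ × List ℕ =>
      srch (stg (RS w.1) w.2.length (kk w.2.length)) w.2.length) :=
    prim_srch.comp (Primrec.pair hs hn)
  have hy := Primrec.fst.comp (Primrec.unpair.comp hq)
  have hi := Primrec.snd.comp (Primrec.unpair.comp hq)
  apply Primrec.ite
  · exact Primrec.eq.comp (Primrec.nat_mod.comp hn (Primrec.const 2)) (Primrec.const 0)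
  · exact Primrec.nat_mod.comp (Primrec.succ.comp (hget (Primrec.nat_div.comp hn
      (Primrec.const 2)))) (Primrec.const 2)
  have hD : Primrec (fun w : ℕ × List ℕ => DN (kk w.2.length) w.2.length) :=
    prim_DN.comp (prim_kk.comp hn) hn
  have hM : PrimrecPred (fun w : ℕ × List ℕ => Mt (stg (RS w.1) w.2.length (kk w.2.length))
      w.2.length (srch (stg (RS w.1) w.2.length (kk w.2.length)) w.2.length).unpair.1
      (srch (stg (RS w.1) w.2.length (kk w.2.length)) w.2.length).unpair.2) :=
    PrimrecRel.comp (R := fun (w : ℕ × ℕ) (q : ℕ) => Mt w.1 w.2 q.unpair.1 q.unpair.2)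
      prim_Mt (Primrec.pair hs hn) hq
  have hpr : Primrec (fun w : ℕ × List ℕ => pr (stg (RS w.1) w.2.length (kk w.2.length))) :=
    Primrec.nat_add.comp hs (Primrec.const 20)
  have hS : Primrec (fun w : ℕ × List ℕ => SN (pr (stg (RS w.1) w.2.length (kk w.2.length)))
      w.2.length (srch (stg (RS w.1) w.2.length (kk w.2.length)) w.2.length).unpair.1) :=
    prim_SN' hpr hn hy
  apply Primrec.ite hM
  · exact Primrec.nat_mod.comp (Primrec.nat_add.comp (Primrec.nat_add.comp
      (Primrec.succ.comp hi) (hget hy)) hS) (Primrec.const 2)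
  · exact Primrec.nat_mod.comp hD (Primrec.const 2)

lemma prim_colR : Primrec₂ (fun S n : ℕ => colR (RS S) n) := by
  refine Primrec.nat_strong_rec (fun S n => colR (RS S) n)
    (g := fun S l => some (stp (RS S) l.length (fun m => l.getD m 0)))
    (Primrec.option_some.comp prim_stp) (fun S n => ?_)
  simp only [getD_map_range, List.length_map, List.length_range]
  rw [colR]

end Pool.Agent.HTC
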