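import Mathlib
import Pool.Agent.HTC.Comp

/-!
The coding two-colouring is computable in the events; the search for an admissible quadruple in a
set `Y` is computable in `Y`, and yields the enumerated set.
-/

namespace Pool.Agent.HTC

open Pool.Agent.EMP Pool.Agent.H55.HT3

/-- the colouring is computable in the events -/
lemma recIn_colR {O : Set (ℕ →. ℕ)} {A : Om} (hA : Nat.RecursiveIn O (orc A)) :
    Nat.RecursiveIn O (fun n => Part.some (colR (RA A) n)) := by
  have hid : Nat.RecursiveIn O (fun n => Part.some (id n)) := recIn_some Primrec.id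
  have hsq : Nat.RecursiveIn O (fun n => Part.some ((n + 1) * (n + 1))) :=
    recIn_some (Primrec.nat_mul.comp Primrec.succ Primrec.succ)
  have h1 := recIn_pair (recIn_comp2 (recIn_cd hA) hsq) hid
  have hF : Primrec (fun q : ℕ => colR (RS q.unpair.1) q.unpair.2) :=
    prim_colR.comp (Primrec.fst.comp Primrec.unpair) (Primrec.snd.comp Primrec.unpair)
  refine (recIn_comp' hF h1).of_eq (fun n => ?_)
  simp only [Nat.unpair_pair, id]
  congr 1
  exact colR_congr n (fun t ht e he => RS_cd A ht he)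

/-- unbounded search for a witness of a primitive recursive predicate with a computable parameter -/
lemma recIn_find {O : Set (ℕ →. ℕ)} {S : ℕ → ℕ}
    (hS : Nat.RecursiveIn O (fun q => Part.some (S q))) {P : ℕ → ℕ → ℕ → Prop}
    (hP : PrimrecPred (fun w : ℕ × ℕ × ℕ => P w.1 w.2.1 w.2.2))
    (hex : ∀ e, ∃ q, P (S q) e q) :
    ∃ fnd : ℕ → ℕ, (∀ e, P (S (fnd e)) e (fnd e)) ∧
      Nat.RecursiveIn O (fun e => Part.some (fnd e)) := by
  classical
  have p1 : Primrec (fun n : ℕ => n.unpair.1) := Primrec.fst.comp Primrec.unpair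
  have p2 : Primrec (fun n : ℕ => n.unpair.2) := Primrec.snd.comp Primrec.unpair
  have hid : Nat.RecursiveIn O (fun n => Part.some (id n)) := recIn_some Primrec.id
  have hid2 : Nat.RecursiveIn O (fun n => Part.some (n.unpair.2)) := recIn_some p2
  have h1 := recIn_pair (recIn_comp2 (F := S) (G := fun n : ℕ => n.unpair.2) hS hid2) hid
  have hF : Primrec (fun q : ℕ => if P q.unpair.1 q.unpair.2.unpair.1 q.unpair.2.unpair.2
      then 0 else 1) := by
    apply Primrec.ite _ (Primrec.const 0) (Primrec.const 1)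
    exact PrimrecPred.comp (p := fun w : ℕ × ℕ × ℕ => P w.1 w.2.1 w.2.2) hP
      (Primrec.pair p1 (Primrec.pair (p1.comp p2) (p2.comp p2)))
  have h2 := Nat.RecursiveIn.rfind (recIn_comp' hF h1)
  refine ⟨fun e => Nat.find (hex e), fun e => Nat.find_spec (hex e), ?_⟩
  refine h2.of_eq (fun e => ?_)
  apply Part.eq_some_iff.mpr
  refine Nat.mem_rfind.mpr ⟨?_, fun {m} hm => ?_⟩
  · have s1 := Nat.find_spec (hex e)
    refine (Part.mem_map_iff _).mpr ⟨0, ?_, by simp⟩
    simp only [Nat.unpair_pair, id]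
    rw [if_pos s1]
    exact Part.mem_some _
  · have s1 := Nat.find_min (hex e) hm
    refine (Part.mem_map_iff _).mpr ⟨1, ?_, by simp⟩
    simp only [Nat.unpair_pair, id]
    rw [if_neg s1]
    exact Part.mem_some _

/-- the code `q` is that of an admissible quadruple of elements of the set coded by `S` -/
def AdmQ (S k q : ℕ) : Prop :=
  (S.testBit q.unpair.1.unpair.1 = true ∧ S.testBit q.unpair.1.unpair.2 = true ∧
    S.testBit q.unpair.2.unpair.1 = true ∧ S.testBit q.unpair.2.unpair.2 = true) ∧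
  Adm k q.unpair.1.unpair.1 q.unpair.1.unpair.2 q.unpair.2.unpair.1 q.unpair.2.unpair.2

lemma prim_AdmQ : PrimrecPred (fun w : ℕ × ℕ × ℕ => AdmQ w.1 (w.2.1 + 1) w.2.2) := by
  unfold AdmQ Adm
  have hS : Primrec (fun w : ℕ × ℕ × ℕ => w.1) := Primrec.fst
  have hk : Primrec (fun w : ℕ × ℕ × ℕ => w.2.1 + 1) :=
    Primrec.succ.comp (Primrec.fst.comp Primrec.snd)
  have hq : Primrec (fun w : ℕ × ℕ × ℕ => w.2.2) := Primrec.snd.comp Primrec.snd
  have p1 : Primrec (fun n : ℕ => n.unpair.1) := Primrec.fst.comp Primrec.unpair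
  have p2 : Primrec (fun n : ℕ => n.unpair.2) := Primrec.snd.comp Primrec.unpair
  have h1 := p1.comp (p1.comp hq)
  have h2 := p2.comp (p1.comp hq)
  have h3 := p1.comp (p2.comp hq)
  have h4 := p2.comp (p2.comp hq)
  have hf : ∀ {F G : ℕ × ℕ × ℕ → ℕ}, Primrec F → Primrec G →
      PrimrecPred (fun w : ℕ × ℕ × ℕ => 4 * op (F w) ^ 6 < op (G w)) := fun hF hG =>
    Primrec.nat_lt.comp (Primrec.nat_mul.comp (Primrec.const 4)
      (prim_pow.comp (prim_op.comp hF) (Primrec.const 6))) (prim_op.comp hG)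
  have hb : ∀ {F : ℕ × ℕ × ℕ → ℕ}, Primrec F →
      PrimrecPred (fun w : ℕ × ℕ × ℕ => w.1.testBit (F w) = true) := fun hF => prim_testBit.comp hS hF
  have hl : ∀ {F : ℕ × ℕ × ℕ → ℕ}, Primrec F →
      PrimrecPred (fun w : ℕ × ℕ × ℕ => w.2.1 + 1 ≤ kk (F w)) := fun hF =>
    Primrec.nat_le.comp hk (prim_kk.comp hF)
  exact ((hb h1).and ((hb h2).and ((hb h3).and (hb h4)))).and
    (((hl h1).and ((hl h2).and ((hl h3).and (hl h4)))).and
      ((hf h1 h2).and ((hf h2 h3).and (hf h3 h4))))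

lemma unpair_le (q : ℕ) : q.unpair.1 ≤ q ∧ q.unpair.2 ≤ q :=
  ⟨Nat.unpair_left_le q, Nat.unpair_right_le q⟩

/-- the decoding -/
lemma recIn_dec {O : Set (ℕ →. ℕ)} {A Y : Om} (hA : Nat.RecursiveIn O (orc A))
    (hY : Nat.RecursiveIn O (orc Y))
    (hex : ∀ k, ∃ x₁ x₂ x₃ x₄, Y x₁ = true ∧ Y x₂ = true ∧ Y x₃ = true ∧ Y x₄ = true ∧
      Adm k x₁ x₂ x₃ x₄) {D : Om}
    (hD : ∀ e x₁ x₂ x₃ x₄, Y x₁ = true → Y x₂ = true → Y x₃ = true → Y x₄ = true →
      Adm (e + 1) x₁ x₂ x₃ x₄ → (D e = true ↔ ∃ t < x₄ + 1, RA A t e)) :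
    Nat.RecursiveIn O (orc D) := by
  classical
  have p1 : Primrec (fun n : ℕ => n.unpair.1) := Primrec.fst.comp Primrec.unpair
  have p2 : Primrec (fun n : ℕ => n.unpair.2) := Primrec.snd.comp Primrec.unpair
  have hid : Nat.RecursiveIn O (fun n => Part.some (id n)) := recIn_some Primrec.id
  have hsucc : Nat.RecursiveIn O (fun n => Part.some (n + 1)) := recIn_some Primrec.succ
  have hS : Nat.RecursiveIn O (fun q => Part.some (cd Y (q + 1))) :=
    recIn_comp2 (F := cd Y) (G := fun n => n + 1) (recIn_cd hY) hsucc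
  obtain ⟨fnd, hf1, hf2⟩ := recIn_find (P := fun S e q => AdmQ S (e + 1) q) hS prim_AdmQ (by
    intro e
    obtain ⟨x₁, x₂, x₃, x₄, y₁, y₂, y₃, y₄, hA⟩ := hex (e + 1)
    refine ⟨Nat.pair (Nat.pair x₁ x₂) (Nat.pair x₃ x₄), ?_⟩
    have l1 := unpair_le (Nat.pair (Nat.pair x₁ x₂) (Nat.pair x₃ x₄))
    have l2 := unpair_le (Nat.pair x₁ x₂)
    have l3 := unpair_le (Nat.pair x₃ x₄)
    simp only [Nat.unpair_pair] at l1 l2 l3
    unfold AdmQ
    simp only [Nat.unpair_pair, testBit_cd]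
    exact ⟨⟨⟨by omega, y₁⟩, ⟨by omega, y₂⟩, ⟨by omega, y₃⟩, ⟨by omega, y₄⟩⟩, hA⟩)
  -- the answer
  have h4 : Nat.RecursiveIn O (fun n => Part.some (Nat.pair (fnd n) (id n))) := recIn_pair hf2 hid
  have hs : Primrec (fun q : ℕ => q.unpair.1 + q.unpair.2 + 1) :=
    Primrec.succ.comp (Primrec.nat_add.comp p1 p2)
  have hB : Primrec (fun q : ℕ => (q.unpair.1 + q.unpair.2 + 1) * (q.unpair.1 + q.unpair.2 + 1)) :=
    Primrec.nat_mul.comp hs hs
  have h6 := recIn_comp' (O := O) (G := fun n => Nat.pair (fnd n) (id n)) hB h4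
  simp only [Nat.unpair_pair, id] at h6
  have h7 : Nat.RecursiveIn O (fun n => Part.some (cd A ((fnd n + n + 1) * (fnd n + n + 1)))) :=
    recIn_comp2 (F := cd A) (G := fun n => (fnd n + n + 1) * (fnd n + n + 1)) (recIn_cd hA) h6
  have h5 := recIn_pair (F := fun n => cd A ((fnd n + n + 1) * (fnd n + n + 1)))
    (G := fun n => Nat.pair (fnd n) (id n)) h7 h4
  have hthis : PrimrecRel (fun (t : ℕ) (w : ℕ × ℕ) => RS w.1 t w.2) := by
    unfold RS
    exact prim_testBit.comp (Primrec.fst.comp Primrec.snd)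
      (Primrec₂.natPair.comp Primrec.fst (Primrec.snd.comp Primrec.snd))
  have hex' := exists_lt' hthis
  have hP : PrimrecPred (fun q : ℕ => ∃ t < q.unpair.2.unpair.1.unpair.2.unpair.2 + 1,
      RS q.unpair.1 t q.unpair.2.unpair.2) :=
    PrimrecRel.comp (R := fun (n : ℕ) (w : ℕ × ℕ) => ∃ t < n, RS w.1 t w.2) hex'
      (f := fun q : ℕ => q.unpair.2.unpair.1.unpair.2.unpair.2 + 1)
      (g := fun q : ℕ => (q.unpair.1, q.unpair.2.unpair.2))
      (Primrec.succ.comp (p2.comp (p2.comp (p1.comp p2)))) (Primrec.pair p1 (p2.comp p2))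
  have hG : Primrec (fun q : ℕ => if ∃ t < q.unpair.2.unpair.1.unpair.2.unpair.2 + 1,
      RS q.unpair.1 t q.unpair.2.unpair.2 then 1 else 0) :=
    Primrec.ite hP (Primrec.const 1) (Primrec.const 0)
  have h8 := recIn_comp' (O := O) (G := fun n => Nat.pair (cd A ((fnd n + n + 1) *
    (fnd n + n + 1))) (Nat.pair (fnd n) (id n))) hG h5
  refine h8.of_eq (fun e => ?_)
  simp only [Nat.unpair_pair, id]
  obtain ⟨⟨s₁, s₂, s₃, s₄⟩, s₅⟩ := hf1 e
  rw [testBit_cd] at s₁ s₂ s₃ s₄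
  have hd := hD e _ _ _ _ s₁.2 s₂.2 s₃.2 s₄.2 s₅
  have hle := s₄.1
  have key : (∃ t < (fnd e).unpair.2.unpair.2 + 1,
      RS (cd A ((fnd e + e + 1) * (fnd e + e + 1))) t e) ↔ D e = true := by
    rw [hd]
    constructor
    · rintro ⟨t, ht, h⟩
      exact ⟨t, ht, (RS_cd A (n := fnd e + e + 1) (by omega) (by omega)).mp h⟩
    · rintro ⟨t, ht, h⟩
      exact ⟨t, ht, (RS_cd A (n := fnd e + e + 1) (by omega) (by omega)).mpr h⟩
  unfold orc
  congr 1
  by_cases hDe : D e = true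
  · rw [if_pos hDe, if_pos (key.mpr hDe)]
  · rw [if_neg hDe, if_neg (fun h => hDe (key.mp h))]

end Pool.Agent.HTC
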