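import Mathlib
import Pool.Agent.HTC.CaseB
import Pool.Agent.HTC.Dec

/-!
The relativised coding theorem for two colours, at the level of oracles.
-/

namespace Pool.Agent.HTC.Rel

open Pool.Agent.EMP Pool.Agent.H55.HT3 Pool.Agent.HTC

/-! ### First stages -/

open Classical in
/-- keep only the first stage at which a number is enumerated -/
noncomputable def fst1 (A : Om) : Om :=
  fun n => decide (A n = true ∧ ∀ t < n.unpair.1, ¬ A (Nat.pair t n.unpair.2) = true)

lemma fst1_iff (A : Om) (t e : ℕ) :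
    RA (fst1 A) t e ↔ A (Nat.pair t e) = true ∧ ∀ s < t, ¬ A (Nat.pair s e) = true := by
  unfold RA fst1
  simp only [Nat.unpair_pair, decide_eq_true_eq]

lemma fst1_bdd (A : Om) (e : ℕ) : ∃ N, ∀ t, RA (fst1 A) t e → t < N := by
  classical
  by_cases h : ∃ t, RA (fst1 A) t e
  · obtain ⟨t0, h0⟩ := h
    refine ⟨t0 + 1, fun t ht => ?_⟩
    rw [fst1_iff] at h0 ht
    by_contra hc
    exact ht.2 t0 (by omega) h0.1
  · exact ⟨0, fun t ht => absurd ⟨t, ht⟩ h⟩

lemma fst1_ex (A : Om) (e : ℕ) : (∃ t, RA (fst1 A) t e) ↔ ∃ t, A (Nat.pair t e) = true := by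
  classical
  constructor
  · rintro ⟨t, ht⟩
    exact ⟨t, ((fst1_iff A t e).mp ht).1⟩
  · intro h
    exact ⟨Nat.find h, (fst1_iff A _ e).mpr ⟨Nat.find_spec h, fun s hs => Nat.find_min h hs⟩⟩

lemma recIn_fst1 {O : Set (ℕ →. ℕ)} {A : Om} (hA : Nat.RecursiveIn O (orc A)) :
    Nat.RecursiveIn O (orc (fst1 A)) := by
  classical
  have p1 : Primrec (fun n : ℕ => n.unpair.1) := Primrec.fst.comp Primrec.unpair
  have p2 : Primrec (fun n : ℕ => n.unpair.2) := Primrec.snd.comp Primrec.unpair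
  have hid : Nat.RecursiveIn O (fun n => Part.some (id n)) := recIn_some Primrec.id
  have hsucc : Nat.RecursiveIn O (fun n => Part.some (n + 1)) := recIn_some Primrec.succ
  have h0 : Nat.RecursiveIn O (fun n => Part.some (cd A (n + 1))) :=
    recIn_comp2 (F := cd A) (G := fun n => n + 1) (recIn_cd hA) hsucc
  have h1 : Nat.RecursiveIn O (fun n => Part.some (Nat.pair (cd A (n + 1)) (id n))) :=
    recIn_pair h0 hid
  have hR : PrimrecRel (fun (t : ℕ) (w : ℕ × ℕ) =>
      ¬ w.1.testBit (Nat.pair t w.2.unpair.2) = true) :=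
    (prim_testBit.comp (Primrec.fst.comp Primrec.snd)
      (Primrec₂.natPair.comp Primrec.fst (p2.comp (Primrec.snd.comp Primrec.snd)))).not
  have hP : PrimrecPred (fun w : ℕ × ℕ => w.1.testBit w.2 = true ∧
      ∀ t < w.2.unpair.1, ¬ w.1.testBit (Nat.pair t w.2.unpair.2) = true) := by
    apply PrimrecPred.and
    · exact prim_testBit.comp Primrec.fst Primrec.snd
    · exact PrimrecRel.comp (R := fun (n : ℕ) (w : ℕ × ℕ) => ∀ t < n,
        ¬ w.1.testBit (Nat.pair t w.2.unpair.2) = true) (forall_lt' hR)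
        (f := fun w : ℕ × ℕ => w.2.unpair.1) (g := fun w : ℕ × ℕ => w)
        (p1.comp Primrec.snd) Primrec.id
  have hG : Primrec (fun q : ℕ => if (q.unpair.1.testBit q.unpair.2 = true ∧
      ∀ t < q.unpair.2.unpair.1, ¬ q.unpair.1.testBit (Nat.pair t q.unpair.2.unpair.2) = true)
      then 1 else 0) := by
    have h := Primrec.ite hP (Primrec.const 1) (Primrec.const 0)
    exact h.comp Primrec.unpair
  refine (recIn_comp' hG h1).of_eq (fun n => ?_)
  simp only [Nat.unpair_pair, id]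
  unfold orc
  congr 1
  have key : ((cd A (n + 1)).testBit n = true ∧ ∀ t < n.unpair.1,
      ¬ (cd A (n + 1)).testBit (Nat.pair t n.unpair.2) = true) ↔ fst1 A n = true := by
    unfold fst1
    simp only [testBit_cd, decide_eq_true_eq]
    constructor
    · rintro ⟨h2, h3⟩
      refine ⟨h2.2, fun t ht h4 => h3 t ht ⟨?_, h4⟩⟩
      have := Nat.pair_lt_pair_left n.unpair.2 ht
      rw [Nat.pair_unpair] at this
      omega
    · rintro ⟨h2, h3⟩
      exact ⟨⟨by omega, h2⟩, fun t ht h4 => h3 t ht h4.2⟩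
  by_cases h : fst1 A n = true
  · rw [if_pos h, if_pos (key.mpr h)]
  · rw [if_neg h, if_neg (fun h' => h (key.mp h'))]

/-! ### The colouring -/

/-- the two-colouring attached to a set -/
noncomputable def colr (A : Om) (n : ℕ) : ℕ := colR (RA (fst1 A)) n

lemma colr_lt (A : Om) (n : ℕ) : colr A n < 2 := colR_lt _ _

lemma recIn_colr {O : Set (ℕ →. ℕ)} {A : Om} (hA : Nat.RecursiveIn O (orc A)) :
    Nat.RecursiveIn O (fun n => Part.some (colr A n)) :=
  recIn_colR (recIn_fst1 hA)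

/-- solutions: one colour on the set and on the sums of two distinct elements -/
def MonoO (c : ℕ → ℕ) (H : Om) : Prop :=
  ∃ i, (∀ x, H x = true → c x = i) ∧ ∀ x y, H x = true → H y = true → x < y → c (x + y) = i

lemma sol_of_mono {A : Om} {H : Om} (h : MonoO (colr A) H) :
    Sol (fun n => (colR (RA (fst1 A)) n : ZMod 2)) {x | H x = true ∧ 0 < x} := by
  obtain ⟨i, h1, h2⟩ := h
  refine ⟨((i : ℕ) : ZMod 2), fun x hx => ⟨hx.2, ?_⟩, fun x hx y hy hxy => ?_⟩
  · rw [← h1 x hx.1]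
    rfl
  · rw [← h2 x y hx.1 hy.1 hxy]
    rfl

lemma infinite_pos {H : Om} (hinf : {x | H x = true}.Infinite) :
    {x | H x = true ∧ 0 < x}.Infinite := by
  rw [Set.infinite_iff_exists_gt]
  intro a
  obtain ⟨x, hx, hax⟩ := hinf.exists_gt a
  exact ⟨x, ⟨hx, by omega⟩, hax⟩

open Classical in
lemma recIn_filter {O : Set (ℕ →. ℕ)} {H : Om} (hH : Nat.RecursiveIn O (orc H))
    {P : ℕ → Prop} (hP : PrimrecPred P) :
    Nat.RecursiveIn O (orc (fun x => decide (H x = true ∧ P x))) := by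
  have p1 : Primrec (fun n : ℕ => n.unpair.1) := Primrec.fst.comp Primrec.unpair
  have p2 : Primrec (fun n : ℕ => n.unpair.2) := Primrec.snd.comp Primrec.unpair
  have hid : Nat.RecursiveIn O (fun n => Part.some (id n)) := recIn_some Primrec.id
  have h1 := recIn_pair hid (recIn_comp hH (F := fun p => p) Primrec.id)
  have hG : Primrec (fun q : ℕ => if q.unpair.2 = 1 ∧ P q.unpair.1 then 1 else 0) :=
    Primrec.ite ((Primrec.eq.comp p2 (Primrec.const 1)).and (hP.comp p1)) (Primrec.const 1)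
      (Primrec.const 0)
  refine (recIn_comp' hG h1).of_eq (fun n => ?_)
  simp only [Nat.unpair_pair, id]
  unfold orc
  congr 1
  by_cases hn : H n = true
  · by_cases hp : P n
    · simp [hn, hp]
    · simp [hn, hp]
  · simp [hn]

/-- the main computation: solutions compute the enumerated set -/
lemma decode_recIn {O : Set (ℕ →. ℕ)} {A : Om} {H : Om} (hA : Nat.RecursiveIn O (orc A))
    (hH : Nat.RecursiveIn O (orc H)) (hinf : {x | H x = true}.Infinite)
    (hm : MonoO (colr A) H) {D : Om}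
    (hD : ∀ e, D e = true ↔ ∃ t, A (Nat.pair t e) = true) : Nat.RecursiveIn O (orc D) := by
  classical
  have hs := sol_of_mono hm
  obtain ⟨Y, hYX, hY, hex, hdec⟩ := core (isStg (fst1_bdd A)) (isCol (RA (fst1 A)))
    (infinite_pos hinf) hs
  have hpos : PrimrecPred (fun x : ℕ => 0 < x) := Primrec.nat_lt.comp (Primrec.const 0) Primrec.id
  have hYrec : ∃ Y' : Om, (∀ x, Y' x = true ↔ x ∈ Y) ∧ Nat.RecursiveIn O (orc Y') := by
    rcases hY with h | ⟨b, h⟩
    · refine ⟨_, fun x => ?_, recIn_filter hH hpos⟩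
      rw [h]
      simp
    · refine ⟨_, fun x => ?_, recIn_filter (recIn_filter hH hpos)
        (P := fun x => low x = b) (Primrec.eq.comp prim_low (Primrec.const b))⟩
      rw [h]
      simp
  obtain ⟨Y', hY', hYr⟩ := hYrec
  apply recIn_dec (recIn_fst1 hA) hYr
  · intro k
    obtain ⟨x₁, h₁, x₂, h₂, x₃, h₃, x₄, h₄, hAdm⟩ := hex k
    exact ⟨x₁, x₂, x₃, x₄, (hY' _).mpr h₁, (hY' _).mpr h₂, (hY' _).mpr h₃,
      (hY' _).mpr h₄, hAdm⟩
  · intro e x₁ x₂ x₃ x₄ h₁ h₂ h₃ h₄ hAdm
    rw [hD, ← fst1_ex]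
    have hle := hdec (e + 1) x₁ ((hY' _).mp h₁) x₂ ((hY' _).mp h₂) x₃
      ((hY' _).mp h₃) x₄ ((hY' _).mp h₄) hAdm
    constructor
    · rintro ⟨t, ht⟩
      have h5 := le_lst (fst1_bdd A) (k := e + 1) ht (by omega)
      exact ⟨t, by omega, ht⟩
    · rintro ⟨t, _, ht⟩
      exact ⟨t, ht⟩

end Pool.Agent.HTC.Rel
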